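import Pool.Agent.TH444.ML.Defs

/-!
# Quadratic extensions of `M`, ordered by the discriminant of their compositum with `N`

`M ⊆ N` number fields, `L = M(√α)` a quadratic extension of `M` not contained in `N`; we order by the
discriminant of `L N = N(√α)`.  The number of these `L` with `|d_(LN)| ≤ Y ^ [N:M] d_N ^ 2` is
asymptotic to `c Y`.
-/

set_option autoImplicit false

open NumberField Filter Topology

namespace Pool.Agent.W5h46.MR

open Pool.Agent.TH444.ML (Sqf nrm QS)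

/-- The quadratic extensions `L` of `M` in `E`, not contained in `N`, such that
`|d_(LN)| ≤ Y ^ [N:M] d_N ^ 2`. -/
def QR (M N E : Type) [Field M] [Field N] [NumberField N] [Algebra M N] [Field E]
    [Algebra M E] [Algebra N E] (Y : ℝ) : Set (IntermediateField M E) :=
  {L | Module.finrank M L = 2 ∧ Module.finrank N (IntermediateField.adjoin N (L : Set E)) = 2 ∧
    ∃ h : NumberField (IntermediateField.adjoin N (L : Set E)),
      ((|@discr (IntermediateField.adjoin N (L : Set E)) _ h| : ℤ) : ℝ) ≤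
        Y ^ Module.finrank M N * ((discr N : ℤ) : ℝ) ^ 2}

/-- JOB A. The condition on the discriminant in terms of `α`, with a weight `g` which depends only on
a residue class. -/
def WtR : Prop :=
  ∀ (M N : Type) [Field M] [NumberField M] [Field N] [NumberField N] [Algebra M N],
  ∃ B : ℝ, 0 < B ∧ ∀ 𝔠 : Ideal (𝓞 M), 𝔠 ≠ ⊥ → ∃ (𝔪 : Ideal (𝓞 M)) (g : 𝓞 M → ℝ), 𝔪 ≠ ⊥ ∧
    (∀ α α' : 𝓞 M, α - α' ∈ 𝔪 → g α = g α') ∧
    (∀ α : 𝓞 M, (Ideal.absNorm 𝔠 : ℝ) ^ 2 / 4 ^ Module.finrank ℚ M ≤ g α ∧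
      g α ≤ B * (Ideal.absNorm 𝔠 : ℝ) ^ 2) ∧
    ∀ (E : Type) [Field E] [Algebra M E] [Algebra N E] [IsScalarTower M N E] (α : 𝓞 M) (s : E),
      Sqf M 𝔠 α → s ^ 2 = algebraMap M E (α : M) → (∀ x : N, algebraMap N E x ≠ s) →
      ∀ Y : ℝ, 0 ≤ Y →
        ((∃ h : NumberField (IntermediateField.adjoin N {s}),
          ((|@discr (IntermediateField.adjoin N {s}) _ h| : ℤ) : ℝ) ≤
            Y ^ Module.finrank M N * ((discr N : ℤ) : ℝ) ^ 2) ↔ nrm α ≤ Y * g α)

/-- JOB A2. Ramification: the part of `𝔡` prime to an ideal `𝔯` (which divides a fixed ideal `𝔕` of norm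
at most `|d_N|`; `𝔕 = 𝓞 M ∩ differentIdeal (𝓞 M) (𝓞 N)`) is bounded by the discriminant. -/
def RamR : Prop :=
  ∀ (M N : Type) [Field M] [NumberField M] [Field N] [NumberField N] [Algebra M N],
  ∃ 𝔕 : Ideal (𝓞 M), 𝔕 ≠ ⊥ ∧ (Ideal.absNorm 𝔕 : ℝ) ≤ ((|discr N| : ℤ) : ℝ) ∧
    ∀ (E : Type) [Field E] [Algebra M E] [Algebra N E] [IsScalarTower M N E] (α : 𝓞 M) (s : E)
      (𝔡 𝔠 : Ideal (𝓞 M)), α ≠ 0 → Squarefree 𝔡 → Ideal.span {α} = 𝔡 * 𝔠 ^ 2 →
      s ^ 2 = algebraMap M E (α : M) → (∀ x : N, algebraMap N E x ≠ s) →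
      ∀ Y : ℝ, 0 ≤ Y →
        (∃ h : NumberField (IntermediateField.adjoin N {s}),
          ((|@discr (IntermediateField.adjoin N {s}) _ h| : ℤ) : ℝ) ≤
            Y ^ Module.finrank M N * ((discr N : ℤ) : ℝ) ^ 2) →
        ∃ 𝔯 𝔟 : Ideal (𝓞 M), 𝔡 = 𝔯 * 𝔟 ∧ 𝔯 ∣ 𝔕 ∧
          (Ideal.absNorm 𝔟 : ℝ) ≤ 4 ^ Module.finrank ℚ M * Y

/-- JOB B1. The limit exists and is positive. -/
def LimR : Prop :=
  ∀ (M N E : Type) [Field M] [NumberField M] [Field N] [NumberField N] [Algebra M N] [Field E]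
    [Algebra M E] [Algebra N E] [IsScalarTower M N E] [IsAlgClosed E],
    ∃ c : ℝ, 0 < c ∧
      Tendsto (fun Y : ℝ => (Set.ncard (QR M N E Y) : ℝ) / Y) atTop (𝓝 c)

/-- JOB B2. Comparison with the discriminants of the quadratic extensions of `M`. -/
def CompR : Prop :=
  ∀ (M N E : Type) [Field M] [NumberField M] [Field N] [NumberField N] [Algebra M N] [Field E]
    [Algebra M E] [Algebra N E] [IsScalarTower M N E] [IsAlgClosed E],
    ∃ C : ℝ, 0 < C ∧ ∀ Y : ℝ, 0 ≤ Y → QR M N E Y ⊆ QS M E (C * Y)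

/-- JOB C. Uniform upper bound. -/
def UnifR : Prop :=
  ∀ (D r : ℕ) (ε : ℝ), 0 < ε → ∃ C : ℝ, ∀ (M N E : Type) [Field M] [NumberField M] [Field N]
    [NumberField N] [Algebra M N] [Field E] [Algebra M E] [Algebra N E] [IsScalarTower M N E]
    [IsAlgClosed E], Module.finrank ℚ M = D → Module.finrank M N = r → ∀ Y : ℝ, 0 ≤ Y →
      (QR M N E Y).Finite ∧
      (Set.ncard (QR M N E Y) : ℝ) ≤
        C * ((|discr M| : ℤ) : ℝ) ^ (7 / 4 : ℝ) * ((|discr N| : ℤ) : ℝ) ^ ε * Y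

/-- JOB G. The number of quadratic extensions `L` of `M` with given compositum `L N`, not equal to
`N`, is a constant `κ` which depends only on `M`, `N`. -/
def FibR : Prop :=
  ∀ (M N E : Type) [Field M] [CharZero M] [Field N] [Algebra M N] [FiniteDimensional M N] [Field E]
    [Algebra M E] [Algebra N E] [IsScalarTower M N E] [IsAlgClosed E],
    ∃ κ : ℕ, 0 < κ ∧ ∀ L' : IntermediateField N E, Module.finrank N L' = 2 →
      (∃ L : IntermediateField M E, Module.finrank M L = 2 ∧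
        IntermediateField.adjoin N (L : Set E) = L') →
      {L : IntermediateField M E | Module.finrank M L = 2 ∧
        IntermediateField.adjoin N (L : Set E) = L'}.ncard = κ

/-- JOB I. Few Galois extensions with group `H`. -/
def FewS : Prop :=
  ∀ (K Ω : Type) [Field K] [NumberField K] [Field Ω] [Algebra K Ω] [IsAlgClosure K Ω]
    (H : Type) [Group H] [Finite H] (U : Subgroup H) (t : ℕ), U.normalCore = ⊥ → 1 ≤ t →
    8 * U.index * (U.index + 1) * t ≤ Nat.card H →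
    Summable (fun M : Pool.Agent.TH444.ML.Gal K Ω H =>
      (Pool.Agent.TH444.ML.dsc M.1) ^ (-(1 / (4 * t)) : ℝ))

end Pool.Agent.W5h46.MR
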