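import Pool.Agent.W5h46.MR.JobA
import Pool.Agent.W5h46.MR.JobB
import Pool.Agent.W5h46.MR.JobC
import Pool.Agent.W5h46.MR.JobG
import Pool.Agent.TH444.ML.Done

/-!
# The facts on quadratic extensions
-/

set_option autoImplicit false

namespace Pool.Agent.W5h46.MR

open Pool.Agent.TH444.ML (quadLim quadUnif quadPos rest)

theorem limR₀ : LimR :=
  limR wtR Pool.Agent.TH914.J3087.kumP Pool.Agent.TH938.J3088.coneFacts rest.coneSqf (quadLim rest)
    quadPos quadUnif Pool.Agent.TH263.J3086.discQuad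

theorem compR₀ : CompR :=
  compR wtR Pool.Agent.TH263.J3086.discQuad Pool.Agent.TH914.J3087.kumP

theorem unifR₀ : UnifR :=
  unifR ramR Pool.Agent.TH914.J3087.kumP Pool.Agent.TH89.J3091.idealUnif
    Pool.Agent.TH55.J3092.princUnif

end Pool.Agent.W5h46.MR
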