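import Pool.Agent.W5h46.MR.Grp
import Pool.Agent.W5h46.MR.Defs

/-!
# The sets which are counted
-/

set_option autoImplicit false

open NumberField

namespace Pool.Agent.W5h46.MR

open Pool.Agent.TH444.ML (dsc)

/-- the extensions with group `C₂ ^ (X / V) ⋊ X` above `(N, M)`, of bounded discriminant -/
def SV {K Ω : Type} [Field K] [NumberField K] [Field Ω] [Algebra K Ω] (X : Type) [Group X]
    (V : Subgroup X) (N M : IntermediateField K Ω) (Z : ℝ) : Set (IntermediateField K Ω) :=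
  {L' | MidV K Ω X V L' N M ∧ dsc L' ≤ Z}

/-- the extensions of `K` with group `C₂ ^ (X / V) ⋊ X`, of bounded discriminant -/
def TTV (K Ω X : Type) [Field K] [Field Ω] [Algebra K Ω] [Group X] (V : Subgroup X) (Z : ℝ) :
    Set (IntermediateField K Ω) :=
  {L | Module.finrank K L = 2 * Nat.card X ∧ IsWrV K Ω X V L ∧ dsc L ≤ Z}

/-- `G ≤ S_n` is, up to a bijection `f` of `{1, ..., n}` with `X × {0, 1}`, the group of all
permutations `(x, b) ↦ (h x, a (x V) b)`, `h ∈ X`, `a : X / V → Sym {0, 1}`. -/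
def IsC2V {X : Type} [Group X] (V : Subgroup X) {n : ℕ} (G : Subgroup (Equiv.Perm (Fin n))) : Prop :=
  ∃ f : Fin n ≃ X × Bool, ∀ π : Equiv.Perm (Fin n), π ∈ G ↔
    ∃ (h : X) (a : X ⧸ V → Equiv.Perm Bool),
      ∀ i, f (π i) = (h * (f i).1, a ((f i).1 : X ⧸ V) (f i).2)

end Pool.Agent.W5h46.MR
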