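import Pool.Agent.TH444.ML.Quo
import Pool.Agent.W5h46.MR.TDef

/-!
# Permutation groups on `Fin n`, counting up to isomorphism, for `C₂ ^ (X / V) ⋊ X`
-/

set_option autoImplicit false
set_option linter.unusedSectionVars false

open NumberField Filter Topology

namespace Pool.Agent.W5h46.MR

open Pool.Agent.TH444.ML (HasGp Cnt dsc nf_of_fd dsc_eq card_quot)

theorem c2v_n {X : Type} [Group X] [Finite X] {V : Subgroup X} {n : ℕ}
    {G : Subgroup (Equiv.Perm (Fin n))} (hG : IsC2V V G) : n = 2 * Nat.card X := by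
  obtain ⟨f, -⟩ := hG
  have := Nat.card_congr f
  rw [Nat.card_prod] at this
  simpa [mul_comm] using this

theorem hasGpV_iff (K : Type) [Field K] {X : Type} [Group X] {V : Subgroup X} {n : ℕ}
    {G : Subgroup (Equiv.Perm (Fin n))} (hG : IsC2V V G)
    (L : IntermediateField K (AlgebraicClosure K)) :
    HasGp K G L ↔ IsWrV K (AlgebraicClosure K) X V L := by
  obtain ⟨f, hf⟩ := hG
  constructor
  · rintro ⟨e, he⟩
    refine ⟨e.trans f, fun π => ?_⟩
    have h1 := hf (f.trans (π.trans f.symm))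
    have h2 := he (f.trans (π.trans f.symm))
    have h3 : π ∈ WrV X V ↔ f.trans (π.trans f.symm) ∈ G := by
      rw [h1]
      constructor
      · rintro ⟨h, a, hh⟩
        exact ⟨h, a, fun i => by simpa using hh (f i).1 (f i).2⟩
      · rintro ⟨h, a, hh⟩
        refine ⟨h, a, fun x b => ?_⟩
        have := hh (f.symm (x, b))
        simpa using this
    rw [h3, h2]
    constructor
    · rintro ⟨σ, hσ⟩
      refine ⟨σ, fun φ => ?_⟩
      have := hσ φ
      simp only [Equiv.trans_apply] at this ⊢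
      rw [this]
      simp
    · rintro ⟨σ, hσ⟩
      refine ⟨σ, fun φ => ?_⟩
      have := hσ φ
      simp only [Equiv.trans_apply] at this ⊢
      rw [← this]
      simp
  · rintro ⟨e, he⟩
    refine ⟨e.trans f.symm, fun π => ?_⟩
    have h1 := hf π
    have h2 := he (f.symm.trans (π.trans f))
    have h3 : π ∈ G ↔ f.symm.trans (π.trans f) ∈ WrV X V := by
      rw [h1]
      constructor
      · rintro ⟨h, a, hh⟩
        refine ⟨h, a, fun x b => ?_⟩
        have := hh (f.symm (x, b))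
        simpa using this
      · rintro ⟨h, a, hh⟩
        exact ⟨h, a, fun i => by simpa using hh (f i).1 (f i).2⟩
    rw [h3, h2]
    constructor
    · rintro ⟨σ, hσ⟩
      refine ⟨σ, fun φ => ?_⟩
      have := hσ φ
      simp only [Equiv.trans_apply] at this ⊢
      rw [this]
      simp
    · rintro ⟨σ, hσ⟩
      refine ⟨σ, fun φ => ?_⟩
      have := hσ φ
      simp only [Equiv.trans_apply] at this ⊢
      rw [← this]
      simp

theorem cntV_eq (K : Type) [Field K] [NumberField K] {X : Type} [Group X] [Finite X]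
    {V : Subgroup X} {n : ℕ} {G : Subgroup (Equiv.Perm (Fin n))} (hG : IsC2V V G) (B : ℝ) :
    Cnt K G B = TTV K (AlgebraicClosure K) X V (B * ((|discr K| : ℤ) : ℝ) ^ n) := by
  have hn := c2v_n hG
  ext L
  constructor
  · rintro ⟨h1, h2, h3, h4⟩
    refine ⟨by rw [h1, hn], (hasGpV_iff K hG L).1 h2, ?_⟩
    rw [dsc_eq L]
    exact h4
  · rintro ⟨h1, h2, h3⟩
    have hpos : 0 < Nat.card X := Nat.card_pos
    have hfd : FiniteDimensional K L := FiniteDimensional.of_finrank_pos (by omega)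
    have hnf : NumberField L := nf_of_fd L
    refine ⟨by rw [h1, hn], (hasGpV_iff K hG L).2 h2, hnf, ?_⟩
    rw [dsc_eq L] at h3
    exact h3

/-- isomorphic fields have the same properties -/
theorem ttV_iso {K Ω X : Type} [Field K] [NumberField K] [Field Ω] [Algebra K Ω] [Group X]
    [Finite X] {V : Subgroup X} {Z : ℝ} {L L' : IntermediateField K Ω} (h : L ∈ TTV K Ω X V Z)
    (ε : L ≃ₐ[K] L') : L' ∈ TTV K Ω X V Z := by
  obtain ⟨h1, ⟨e, he⟩, h3⟩ := h
  have hpos : 0 < Nat.card X := Nat.card_pos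
  have hfd : FiniteDimensional K L := FiniteDimensional.of_finrank_pos (by omega)
  have hnf : NumberField L := nf_of_fd L
  have hfd' : FiniteDimensional K L' := Module.Finite.equiv ε.toLinearEquiv
  have hnf' : NumberField L' := nf_of_fd L'
  refine ⟨?_, ?_, ?_⟩
  · rw [← h1]; exact (ε.toLinearEquiv.finrank_eq).symm
  · let E : (L' →ₐ[K] Ω) ≃ (L →ₐ[K] Ω) :=
      { toFun := fun φ => φ.comp ε.toAlgHom
        invFun := fun φ => φ.comp ε.symm.toAlgHom
        left_inv := fun φ => by ext x; simp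
        right_inv := fun φ => by ext x; simp }
    refine ⟨E.trans e, fun π => ?_⟩
    rw [he π]
    constructor
    · rintro ⟨σ, hσ⟩
      exact ⟨σ, fun φ => hσ (E φ)⟩
    · rintro ⟨σ, hσ⟩
      refine ⟨σ, fun φ => ?_⟩
      have := hσ (E.symm φ)
      simp only [Equiv.trans_apply, Equiv.apply_symm_apply] at this
      rw [← this]
      congr 1
      ext x
      simp [E]
  · rw [dsc_eq L']
    rw [dsc_eq L] at h3
    rw [← NumberField.discr_eq_discr_of_ringEquiv L (ε : L ≃+* L')]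
    exact h3

theorem quot_TTV {K Ω X : Type} [Field K] [NumberField K] [Field Ω] [Algebra K Ω]
    [IsAlgClosure K Ω] [Group X] [Finite X] {V : Subgroup X} (Z : ℝ)
    (hfin : (TTV K Ω X V Z).Finite) :
    Nat.card (Quot (fun L L' : TTV K Ω X V Z => Nonempty (L.1 ≃ₐ[K] L'.1))) * Nat.card (X ⧸ V) =
      (TTV K Ω X V Z).ncard := by
  have : Finite (TTV K Ω X V Z) := hfin
  rw [card_quot (T := TTV K Ω X V Z) (fun L L' => Nonempty (L.1 ≃ₐ[K] L'.1)) ?_
    (Nat.card (X ⧸ V)) ?_]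
  · rfl
  · exact ⟨fun L => ⟨AlgEquiv.refl⟩, fun ⟨a⟩ => ⟨a.symm⟩, fun ⟨a⟩ ⟨b⟩ => ⟨a.trans b⟩⟩
  · intro L
    rw [← conj_card L.1 L.2.2.1, ← Nat.card_coe_set_eq]
    refine Nat.card_congr ⟨fun y => ⟨y.1.1, y.2⟩,
      fun y => ⟨⟨y.1, ttV_iso L.2 y.2.some⟩, y.2⟩, fun y => rfl, fun y => rfl⟩

/-- an extension with group `C₂ ^ (X / V) ⋊ X` gives an extension with group `X` -/
theorem gal_of_cntV (K : Type) [Field K] [NumberField K] (X : Type) [Group X] [Finite X]
    (V : Subgroup X) {d : ℕ} {G : Subgroup (Equiv.Perm (Fin d))} (hG : IsC2V V G) {B : ℝ}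
    {L : IntermediateField K (AlgebraicClosure K)} (hL : L ∈ Cnt K G B) :
    ∃ M : IntermediateField K (AlgebraicClosure K),
      M ∈ Pool.Agent.TH444.ML.Gal K (AlgebraicClosure K) X := by
  rw [cntV_eq K hG] at hL
  obtain ⟨N, M, hM⟩ := forward L hL.1 hL.2.1
  exact ⟨N, (pv_basic hM.1).2.2.2.2.2⟩

theorem pv_of_gal {K Ω : Type} [Field K] [NumberField K] [Field Ω] [Algebra K Ω]
    [IsAlgClosure K Ω] {X : Type} [Group X] [Finite X] (V : Subgroup X)
    {N : IntermediateField K Ω} (hN : N ∈ Pool.Agent.TH444.ML.Gal K Ω X) :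
    ∃ M, (N, M) ∈ PV K Ω X V := by
  obtain ⟨hfd, hgal, ⟨f⟩⟩ := hN
  have hn : Normal K Ω := IsAlgClosure.normal K Ω
  have i3 : Algebra.IsAlgebraic K Ω := IsAlgClosure.isAlgebraic
  have i4 : Algebra.IsSeparable K Ω := inferInstance
  have i5 : IsGalois K Ω := ⟨⟩
  let h : (Ω ≃ₐ[K] Ω) →* X := f.toMonoidHom.comp (AlgEquiv.restrictNormalHom N)
  have hs : Function.Surjective h := f.surjective.comp (AlgEquiv.restrictNormalHom_surjective Ω)
  have hker : h.ker = N.fixingSubgroup := by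
    rw [← IntermediateField.restrictNormalHom_ker]
    ext σ
    rw [MonoidHom.mem_ker, MonoidHom.mem_ker]
    change f (AlgEquiv.restrictNormalHom N σ) = 1 ↔ _
    rw [map_eq_one_iff f f.injective]
  have hle : h.ker ≤ V.comap h := by
    intro σ hσ
    rw [MonoidHom.mem_ker] at hσ
    rw [Subgroup.mem_comap, hσ]
    exact one_mem _
  have hopen : IsOpen ((V.comap h : Subgroup (Ω ≃ₐ[K] Ω)) : Set (Ω ≃ₐ[K] Ω)) :=
    Subgroup.isOpen_mono (hker ▸ hle) N.fixingSubgroup_isOpen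
  obtain ⟨M, hM, -⟩ := exists_field (V.comap h) hopen
  exact ⟨M, hfd, h, hs, hker, hM.symm⟩

/-- the asymptotic formula for the extensions with group `G` -/
theorem asympV (K : Type) [Field K] [NumberField K] (X : Type) [Group X] [Finite X]
    (V : Subgroup X) {n : ℕ} {G : Subgroup (Equiv.Perm (Fin n))} (hG : IsC2V V G)
    (hm : (∀ B : ℝ, 0 < B →
        (TTV K (AlgebraicClosure K) X V (B * ((|discr K| : ℤ) : ℝ) ^ n)).Finite) ∧
      ∃ c : ℝ, 0 < c ∧ Tendsto (fun B : ℝ =>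
        (Set.ncard (TTV K (AlgebraicClosure K) X V (B * ((|discr K| : ℤ) : ℝ) ^ n)) : ℝ) /
          B ^ (1 / (Nat.card V : ℝ))) atTop (𝓝 c)) :
    (∀ B : ℝ, 0 < B → (Cnt K G B).Finite) ∧ ∃ c : ℝ, 0 < c ∧
      Tendsto (fun B : ℝ => (Set.ncard (Cnt K G B) : ℝ) / B ^ (1 / (Nat.card V : ℝ)))
        atTop (𝓝 c) := by
  simp only [cntV_eq K hG]
  exact hm

/-- up to isomorphism -/
theorem asympV_iso (K : Type) [Field K] [NumberField K] (X : Type) [Group X] [Finite X]
    (V : Subgroup X) {n : ℕ} {G : Subgroup (Equiv.Perm (Fin n))} (hG : IsC2V V G)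
    (hm : (∀ B : ℝ, 0 < B →
        (TTV K (AlgebraicClosure K) X V (B * ((|discr K| : ℤ) : ℝ) ^ n)).Finite) ∧
      ∃ c : ℝ, 0 < c ∧ Tendsto (fun B : ℝ =>
        (Set.ncard (TTV K (AlgebraicClosure K) X V (B * ((|discr K| : ℤ) : ℝ) ^ n)) : ℝ) /
          B ^ (1 / (Nat.card V : ℝ))) atTop (𝓝 c)) :
    ∃ c : ℝ, 0 < c ∧ Tendsto (fun B : ℝ =>
      (Nat.card (Quot (fun L L' : Cnt K G B => Nonempty (L.1 ≃ₐ[K] L'.1))) : ℝ) /
        B ^ (1 / (Nat.card V : ℝ))) atTop (𝓝 c) := by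
  obtain ⟨hfin, c, hc0, hlim⟩ := asympV K X V hG hm
  have hpos : (0 : ℝ) < Nat.card (X ⧸ V) := by exact_mod_cast (Nat.card_pos : 0 < Nat.card (X ⧸ V))
  refine ⟨c / Nat.card (X ⧸ V), by positivity, ?_⟩
  have h := hlim.div_const (Nat.card (X ⧸ V) : ℝ)
  refine h.congr' ?_
  filter_upwards [eventually_gt_atTop (0 : ℝ)] with B hB
  have hB' := hfin B hB
  rw [cntV_eq K hG] at hB' ⊢
  have hq := quot_TTV (K := K) (Ω := AlgebraicClosure K) (X := X) (V := V) _ hB'
  rw [← hq]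
  push_cast
  have hb : (0 : ℝ) < B ^ (1 / (Nat.card V : ℝ)) := Real.rpow_pos_of_pos hB _
  field_simp

end Pool.Agent.W5h46.MR
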