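import Pool.Agent.W5h46.ML.Grp

/-!
# Extensions with group `C₂ ^ (X / V) ⋊ X`, acting on `X × {0, 1}`
-/

set_option autoImplicit false
set_option linter.unusedSectionVars false

open IntermediateField
open Pool.Agent.TH365.J3099 (act act_apply act_apply_apply ker_act imP ncard_imP)
open Pool.Agent.W5h46.ML (exists_ext act_val_eq card_emb Over exists_pair)

namespace Pool.Agent.W5h46.MR

/-- the group `C₂ ^ (X / V) ⋊ X` acting on `X × Bool` -/
def WrV (X : Type) [Group X] (V : Subgroup X) : Set (Equiv.Perm (X × Bool)) :=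
  {π | ∃ (h : X) (a : X ⧸ V → Equiv.Perm Bool), ∀ (x : X) (b : Bool),
    π (x, b) = (h * x, a (x : X ⧸ V) b)}

/-- `L/K` has Galois group `C₂ ^ (X / V) ⋊ X` (as a permutation group on the embeddings) -/
def IsWrV (K Ω : Type) [Field K] [Field Ω] [Algebra K Ω] (X : Type) [Group X] (V : Subgroup X)
    (L : IntermediateField K Ω) : Prop :=
  ∃ e : (L →ₐ[K] Ω) ≃ X × Bool, ∀ π : Equiv.Perm (X × Bool), π ∈ WrV X V ↔
    ∃ σ : Ω ≃ₐ[K] Ω, ∀ φ : L →ₐ[K] Ω, e (σ.toAlgHom.comp φ) = π (e φ)

/-- pairs `(N, M)`: `N/K` is Galois with group `X`, `M` corresponds to `V` -/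
def PV (K Ω : Type) [Field K] [Field Ω] [Algebra K Ω] (X : Type) [Group X] (V : Subgroup X) :
    Set (IntermediateField K Ω × IntermediateField K Ω) :=
  {p | FiniteDimensional K p.1 ∧ ∃ h : (Ω ≃ₐ[K] Ω) →* X, Function.Surjective h ∧
    h.ker = p.1.fixingSubgroup ∧ V.comap h = p.2.fixingSubgroup}

/-- the pairs `(N, M)` which show that `L/K` has group `C₂ ^ (X / V) ⋊ X` -/
def MidV (K Ω : Type) [Field K] [Field Ω] [Algebra K Ω] (X : Type) [Group X] (V : Subgroup X)
    (L' N M : IntermediateField K Ω) : Prop :=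
  (N, M) ∈ PV K Ω X V ∧
    (∃ L : IntermediateField K Ω, M ≤ L ∧ Module.finrank K L = 2 * Module.finrank K M ∧
      L' = L ⊔ N) ∧
    Module.finrank K (normalClosure K L' Ω) = 2 ^ Module.finrank K M * Module.finrank K N

section wr

variable {X : Type} [Group X] {V : Subgroup X}

/-- the permutation `(x, b) ↦ (h x, f x b)` -/
def wrF (p : X × (X ⧸ V → Equiv.Perm Bool)) : Equiv.Perm (X × Bool) where
  toFun x := (p.1 * x.1, p.2 (x.1 : X ⧸ V) x.2)
  invFun y := (p.1⁻¹ * y.1, (p.2 ((p.1⁻¹ * y.1 : X) : X ⧸ V)).symm y.2)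
  left_inv x := by simp
  right_inv y := by simp

theorem wrF_injective : Function.Injective (wrF (X := X) (V := V)) := by
  rintro ⟨h, f⟩ ⟨h', f'⟩ e
  have e1 : ∀ x : X × Bool, wrF (h, f) x = wrF (h', f') x := fun x => by rw [e]
  have h1 : h = h' := by
    have := congrArg Prod.fst (e1 (1, true))
    simpa [wrF] using this
  subst h1
  have h2 : f = f' := by
    funext q
    obtain ⟨x, rfl⟩ := QuotientGroup.mk_surjective q
    ext b
    have := congrArg Prod.snd (e1 (x, b))
    simpa [wrF] using this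
  rw [h2]

theorem range_wrF : Set.range (wrF (X := X) (V := V)) = WrV X V := by
  ext π
  constructor
  · rintro ⟨⟨h, f⟩, rfl⟩
    exact ⟨h, f, fun x b => rfl⟩
  · rintro ⟨h, f, hh⟩
    refine ⟨(h, f), ?_⟩
    ext1 ⟨x, b⟩
    rw [hh]
    rfl

theorem ncard_WrV [Finite X] : (WrV X V).ncard = 2 ^ Nat.card (X ⧸ V) * Nat.card X := by
  classical
  have : Fintype (X ⧸ V) := Fintype.ofFinite _
  have : Fintype X := Fintype.ofFinite X
  rw [← range_wrF, ← Set.image_univ, Set.ncard_image_of_injective _ wrF_injective,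
    Set.ncard_univ, Nat.card_prod, Nat.card_fun, mul_comm]
  congr 2
  rw [Nat.card_eq_fintype_card, Fintype.card_perm]
  simp

theorem perm_bool {f : Equiv.Perm Bool} {b : Bool} (h : f b = b) : f = 1 := by
  ext c
  have h1 : f (!b) ≠ b := by
    intro h2
    have := f.injective (h2.trans h.symm)
    cases b <;> simp at this
  have h3 : f (!b) = !b := by
    revert h1
    cases f (!b) <;> cases b <;> simp
  by_cases hc : c = b
  · rw [hc, h]; rfl
  · have : c = !b := by revert hc; cases c <;> cases b <;> simp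
    rw [this, h3]; rfl

/-- points over the same coset are fixed by the same elements -/
theorem fix_iff (a c : X × Bool) :
    (∀ π : Equiv.Perm (X × Bool), π ∈ WrV X V → (π a = a ↔ π c = c)) ↔
      (a.1 : X ⧸ V) = (c.1 : X ⧸ V) := by
  classical
  constructor
  · intro h
    by_contra hne
    have h1 := h (wrF (1, fun q => if q = (c.1 : X ⧸ V) then Equiv.swap false true else 1))
      (by rw [← range_wrF]; exact ⟨_, rfl⟩)
    have h2 : wrF (1, fun q => if q = (c.1 : X ⧸ V) then Equiv.swap false true else 1) a = a := by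
      simp [wrF, hne]
    have h3 := h1.1 h2
    have h4 := congrArg Prod.snd h3
    obtain ⟨c1, c2⟩ := c
    cases c2 <;> simp [wrF] at h4
  · intro h
    have key : ∀ a c : X × Bool, (a.1 : X ⧸ V) = (c.1 : X ⧸ V) → ∀ π : Equiv.Perm (X × Bool),
        π ∈ WrV X V → π a = a → π c = c := by
      rintro ⟨a1, a2⟩ ⟨c1, c2⟩ h π ⟨g, f, hg⟩ hπ
      simp only at h
      rw [hg] at hπ
      have h1 : g * a1 = a1 := congrArg Prod.fst hπ
      have h2 : f (a1 : X ⧸ V) a2 = a2 := congrArg Prod.snd hπ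
      have h3 : g = 1 := by simpa using h1
      have h4 := perm_bool h2
      rw [hg, h3, ← h, h4, one_mul]
      rfl
    intro π hπ
    exact ⟨key a c h π hπ, key c a h.symm π hπ⟩

end wr

section main

variable {K Ω : Type} [Field K] [CharZero K] [Field Ω] [Algebra K Ω] [IsAlgClosure K Ω]
variable {X : Type} [Group X] [Finite X] {V : Subgroup X}

theorem fix_inj [IsGalois K Ω] {A B : IntermediateField K Ω} (h : A.fixingSubgroup = B.fixingSubgroup) :
    A = B := by
  rw [← InfiniteGalois.fixedField_fixingSubgroup A, h, InfiniteGalois.fixedField_fixingSubgroup]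

theorem le_of_fix [IsGalois K Ω] {A B : IntermediateField K Ω} (h : B.fixingSubgroup ≤ A.fixingSubgroup) :
    A ≤ B := by
  rw [← InfiniteGalois.fixedField_fixingSubgroup A, ← InfiniteGalois.fixedField_fixingSubgroup B]
  intro x hx
  rw [mem_fixedField_iff] at hx ⊢
  exact fun σ hσ => hx σ (h hσ)

/-- fields with given open fixing subgroup -/
theorem exists_field [IsGalois K Ω] (B : Subgroup (Ω ≃ₐ[K] Ω)) (hB : IsOpen (B : Set (Ω ≃ₐ[K] Ω))) :
    ∃ M : IntermediateField K Ω, M.fixingSubgroup = B ∧ FiniteDimensional K M := by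
  have hBc : IsClosed (B : Set (Ω ≃ₐ[K] Ω)) := Subgroup.isClosed_of_isOpen _ hB
  have hM : (fixedField B).fixingSubgroup = B :=
    InfiniteGalois.fixingSubgroup_fixedField ⟨B, hBc⟩
  refine ⟨fixedField B, hM, ?_⟩
  rw [← InfiniteGalois.isOpen_iff_finite, hM]
  exact hB

theorem mem_fix_iff (L : IntermediateField K Ω) (σ : Ω ≃ₐ[K] Ω) :
    σ ∈ L.fixingSubgroup ↔ act L σ L.val = L.val := by
  have h := act_val_eq L 1 σ
  rw [map_one, Equiv.Perm.one_apply, inv_one, one_mul] at h
  rw [← h]
  exact eq_comm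

/-- basic facts on the pairs -/
theorem pv_basic {N M : IntermediateField K Ω} (h : (N, M) ∈ PV K Ω X V) :
    M ≤ N ∧ FiniteDimensional K M ∧ IsGalois K N ∧ Module.finrank K N = Nat.card X ∧
      Module.finrank K M = Nat.card (X ⧸ V) ∧ N ∈ Pool.Agent.TH444.ML.Gal K Ω X := by
  have i2 : Normal K Ω := IsAlgClosure.normal K Ω
  have i3 : Algebra.IsAlgebraic K Ω := IsAlgClosure.isAlgebraic
  have i4 : Algebra.IsSeparable K Ω := inferInstance
  have i5 : IsGalois K Ω := ⟨⟩
  obtain ⟨hfd, h, hs, hk, hv⟩ := h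
  simp only at hfd hk hv
  have hle : h.ker ≤ V.comap h := by
    intro σ hσ
    rw [MonoidHom.mem_ker] at hσ
    rw [Subgroup.mem_comap, hσ]
    exact one_mem _
  have hMN : M ≤ N := le_of_fix (by rw [← hk, ← hv]; exact hle)
  have hMfd : FiniteDimensional K M :=
    FiniteDimensional.of_injective (IntermediateField.inclusion hMN).toLinearMap
      (IntermediateField.inclusion hMN).injective
  have hnorm : N.fixingSubgroup.Normal := by
    rw [← hk]
    infer_instance
  have hgal : IsGalois K N := by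
    rw [← InfiniteGalois.normal_iff_isGalois]
    exact hnorm
  have hker : h.ker = (AlgEquiv.restrictNormalHom (F := K) (K₁ := Ω) N).ker := by
    rw [IntermediateField.restrictNormalHom_ker, hk]
  have f := (QuotientGroup.quotientKerEquivOfSurjective _ (AlgEquiv.restrictNormalHom_surjective (F := K) (K₁ := N) Ω)).symm.trans
    ((QuotientGroup.quotientMulEquivOfEq hker.symm).trans (QuotientGroup.quotientKerEquivOfSurjective h hs))
  refine ⟨hMN, hMfd, hgal, ?_, ?_, ⟨hfd, hgal, ⟨f⟩⟩⟩
  · rw [IntermediateField.finrank_eq_fixingSubgroup_index, ← hk, Subgroup.index_ker,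
      MonoidHom.range_eq_top.2 hs]
    exact Nat.card_congr Subgroup.topEquiv.toEquiv
  · rw [IntermediateField.finrank_eq_fixingSubgroup_index, ← hv,
      Subgroup.index_comap_of_surjective _ hs]
    rfl

/-- the equivariant bijection between the embeddings and the points of `A` -/
theorem emb_equiv [IsGalois K Ω] {A : Type} [MulAction X A] [MulAction.IsPretransitive X A] (F : IntermediateField K Ω)
    (h : (Ω ≃ₐ[K] Ω) →* X) (hs : Function.Surjective h) (a0 : A)
    (hF : F.fixingSubgroup = (MulAction.stabilizer X a0).comap h) :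
    ∃ e : (F →ₐ[K] Ω) ≃ A, (∀ σ φ, e (act F σ φ) = h σ • e φ) ∧ e F.val = a0 := by
  choose s hsv using exists_ext (K := K) (Ω := Ω) F
  have hwd : ∀ σ τ : Ω ≃ₐ[K] Ω, act F σ F.val = act F τ F.val ↔ h σ • a0 = h τ • a0 := by
    intro σ τ
    rw [act_val_eq, hF, Subgroup.mem_comap, MulAction.mem_stabilizer_iff, map_mul, map_inv, mul_smul,
      inv_smul_eq_iff, eq_comm]
  let θ : (F →ₐ[K] Ω) → A := fun φ => h (s φ) • a0
  have hθ : ∀ σ, θ (act F σ F.val) = h σ • a0 := fun σ => (hwd _ _).1 (hsv _)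
  have hbij : Function.Bijective θ := by
    constructor
    · intro φ ψ hφψ
      rw [← hsv φ, ← hsv ψ]
      exact (hwd _ _).2 hφψ
    · intro q
      obtain ⟨x, hx⟩ := MulAction.exists_smul_eq X a0 q
      obtain ⟨σ, hσ⟩ := hs x
      exact ⟨act F σ F.val, by rw [hθ, hσ, hx]⟩
  refine ⟨Equiv.ofBijective θ hbij, ?_, ?_⟩
  · intro σ φ
    change θ (act F σ φ) = h σ • θ φ
    conv_lhs => rw [← hsv φ]
    rw [← Equiv.Perm.mul_apply, ← map_mul, hθ, map_mul, mul_smul]
  · change θ F.val = a0
    have h1 := hθ 1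
    rw [map_one, map_one, one_smul] at h1
    exact h1

theorem forward (L' : IntermediateField K Ω) (hL : Module.finrank K L' = 2 * Nat.card X)
    (hw : IsWrV K Ω X V L') : ∃ N M, MidV K Ω X V L' N M := by
  obtain ⟨e, he⟩ := hw
  have hpos : 0 < Nat.card X := Nat.card_pos
  have hfd : FiniteDimensional K L' := FiniteDimensional.of_finrank_pos (by omega)
  have i1 : IsAlgClosed Ω := IsAlgClosure.isAlgClosed K
  have i2 : Normal K Ω := IsAlgClosure.normal K Ω
  have i3 : Algebra.IsAlgebraic K Ω := IsAlgClosure.isAlgebraic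
  have i4 : Algebra.IsSeparable K Ω := inferInstance
  have i5 : IsGalois K Ω := ⟨⟩
  let P : (Ω ≃ₐ[K] Ω) →* Equiv.Perm (X × Bool) := e.permCongrHom.toMonoidHom.comp (act L')
  have hP : ∀ (σ : Ω ≃ₐ[K] Ω) (φ : L' →ₐ[K] Ω), e (act L' σ φ) = P σ (e φ) := by
    intro σ φ
    change _ = e (act L' σ (e.symm (e φ)))
    rw [Equiv.symm_apply_apply]
  have hPW : ∀ σ, P σ ∈ WrV X V := fun σ => (he _).2 ⟨σ, fun φ => hP σ φ⟩
  choose g a ha using hPW
  obtain ⟨x0, b0, hx0⟩ : ∃ x0 b0, e L'.val = (x0, b0) := ⟨_, _, rfl⟩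
  let h : (Ω ≃ₐ[K] Ω) →* X :=
    { toFun := g
      map_one' := by
        have h1 := ha 1 1 true
        rw [map_one, Equiv.Perm.one_apply] at h1
        have := congrArg Prod.fst h1
        simpa using this.symm
      map_mul' := fun σ τ => by
        have h1 := ha (σ * τ) 1 true
        rw [map_mul, Equiv.Perm.mul_apply, ha τ, ha σ] at h1
        have := congrArg Prod.fst h1
        simpa using this.symm }
  have hg : ∀ σ, h σ = g σ := fun σ => rfl
  have haa : ∀ σ τ (x : X), a (σ * τ) (x : X ⧸ V) = a σ ((g τ * x : X) : X ⧸ V) * a τ (x : X ⧸ V) := by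
    intro σ τ x
    ext b
    have h1 := ha (σ * τ) x b
    rw [map_mul, Equiv.Perm.mul_apply, ha τ, ha σ] at h1
    exact (congrArg Prod.snd h1).symm
  have ha1 : ∀ x : X, a 1 (x : X ⧸ V) = 1 := by
    intro x
    ext b
    have h1 := ha 1 x b
    rw [map_one, Equiv.Perm.one_apply] at h1
    exact (congrArg Prod.snd h1).symm
  have hs : Function.Surjective h := by
    intro x
    obtain ⟨σ, hσ⟩ := (he (wrF (x, 1))).1 (by rw [← range_wrF]; exact ⟨_, rfl⟩)
    refine ⟨σ, ?_⟩
    have h1 := hσ (e.symm (1, true))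
    rw [← act_apply, hP, Equiv.apply_symm_apply, ha] at h1
    have h2 := congrArg Prod.fst h1
    have h3 : g σ = x := by simpa [wrF] using h2
    exact h3
  let h' : (Ω ≃ₐ[K] Ω) →* X := (MulAut.conj x0⁻¹).toMonoidHom.comp h
  have hh' : ∀ σ, h' σ = x0⁻¹ * g σ * x0 := by
    intro σ
    change x0⁻¹ * h σ * (x0⁻¹)⁻¹ = _
    rw [inv_inv]
    rfl
  have hs' : Function.Surjective h' := (MulAut.conj x0⁻¹).surjective.comp hs
  have hk' : h'.ker = h.ker := by
    ext σ
    rw [MonoidHom.mem_ker, MonoidHom.mem_ker, hh', hg]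
    constructor
    · intro h1
      have : g σ = x0 * (x0⁻¹ * g σ * x0) * x0⁻¹ := by group
      rw [this, h1]
      group
    · intro h1
      rw [h1]
      group
  -- coset of `x0`
  have hcos : ∀ τ, h' τ ∈ V → ((g τ * x0 : X) : X ⧸ V) = (x0 : X ⧸ V) := by
    intro τ hτ
    rw [eq_comm, QuotientGroup.eq]
    rw [hh'] at hτ
    rw [← mul_assoc]
    exact hτ
  let c : (V.comap h') →* Equiv.Perm Bool :=
    { toFun := fun σ => a σ.1 (x0 : X ⧸ V)
      map_one' := ha1 x0
      map_mul' := fun σ τ => by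
        change a (σ.1 * τ.1) (x0 : X ⧸ V) = _
        rw [haa, hcos τ.1 τ.2] }
  have hcs : Function.Surjective c := by
    classical
    intro f
    obtain ⟨σ, hσ⟩ := (he (wrF (1, fun q => if q = (x0 : X ⧸ V) then f else 1))).1
      (by rw [← range_wrF]; exact ⟨_, rfl⟩)
    have h1 : ∀ x b, P σ (x, b) = wrF (1, fun q => if q = (x0 : X ⧸ V) then f else 1) (x, b) := by
      intro x b
      have h2 := hσ (e.symm (x, b))
      rw [← act_apply, hP, Equiv.apply_symm_apply] at h2
      exact h2
    have h3 : g σ = 1 := by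
      have h4 := h1 1 true
      rw [ha] at h4
      have := congrArg Prod.fst h4
      simpa [wrF] using this
    refine ⟨⟨σ, ?_⟩, ?_⟩
    · rw [Subgroup.mem_comap, hh', h3]
      have : x0⁻¹ * 1 * x0 = 1 := by group
      rw [this]
      exact one_mem _
    · ext b
      change a σ (x0 : X ⧸ V) b = f b
      have h4 := h1 x0 b
      rw [ha] at h4
      have := congrArg Prod.snd h4
      simpa [wrF] using this
  -- the point stabilizer
  have hL' : ∀ σ, σ ∈ L'.fixingSubgroup ↔ g σ = 1 ∧ a σ (x0 : X ⧸ V) = 1 := by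
    intro σ
    rw [mem_fix_iff]
    constructor
    · intro h1
      have h2 := hP σ L'.val
      rw [h1, hx0, ha] at h2
      have h3 : g σ * x0 = x0 := (congrArg Prod.fst h2).symm
      refine ⟨by simpa using h3, perm_bool (b := b0) ?_⟩
      exact (congrArg Prod.snd h2).symm
    · rintro ⟨h1, h2⟩
      apply e.injective
      rw [hP, hx0, ha, h1, h2, one_mul]
      rfl
  have hopen : IsOpen (L'.fixingSubgroup : Set (Ω ≃ₐ[K] Ω)) := L'.fixingSubgroup_isOpen
  have hkle : L'.fixingSubgroup ≤ h'.ker := by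
    intro σ hσ
    rw [hk', MonoidHom.mem_ker]
    exact ((hL' σ).1 hσ).1
  have hVle : h'.ker ≤ V.comap h' := by
    intro σ hσ
    rw [MonoidHom.mem_ker] at hσ
    rw [Subgroup.mem_comap, hσ]
    exact one_mem _
  let S : Subgroup (Ω ≃ₐ[K] Ω) := c.ker.map (V.comap h').subtype
  have hS : ∀ σ, σ ∈ S ↔ σ ∈ V.comap h' ∧ a σ (x0 : X ⧸ V) = 1 := by
    intro σ
    constructor
    · rintro ⟨τ, hτ, rfl⟩
      exact ⟨τ.2, hτ⟩
    · rintro ⟨h1, h2⟩
      exact ⟨⟨σ, h1⟩, h2, rfl⟩
  have hLS : L'.fixingSubgroup ≤ S := by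
    intro σ hσ
    rw [hS]
    exact ⟨hVle (hkle hσ), ((hL' σ).1 hσ).2⟩
  obtain ⟨N, hN, hNfd⟩ := exists_field h'.ker (Subgroup.isOpen_mono hkle hopen)
  obtain ⟨M, hM, hMfd⟩ := exists_field (V.comap h') (Subgroup.isOpen_mono (hkle.trans hVle) hopen)
  obtain ⟨L, hLf, hLfd⟩ := exists_field S (Subgroup.isOpen_mono hLS hopen)
  have hPV : (N, M) ∈ PV K Ω X V := ⟨hNfd, h', hs', hN.symm, hM.symm⟩
  obtain ⟨-, -, -, hcN, hcM, -⟩ := pv_basic hPV
  refine ⟨N, M, hPV, ⟨L, ?_, ?_, ?_⟩, ?_⟩
  · apply le_of_fix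
    rw [hLf, hM]
    intro σ hσ
    exact ((hS σ).1 hσ).1
  · rw [finrank_eq_fixingSubgroup_index, finrank_eq_fixingSubgroup_index, hLf, hM]
    change (c.ker.map (V.comap h').subtype).index = _
    rw [Subgroup.index_map_subtype, Subgroup.index_ker, MonoidHom.range_eq_top.2 hcs]
    congr 1
    rw [Nat.card_congr Subgroup.topEquiv.toEquiv, Nat.card_eq_fintype_card, Fintype.card_perm]
    simp
  · apply fix_inj
    rw [fixingSubgroup_sup, hLf, hN]
    ext σ
    rw [hL', Subgroup.mem_inf, hS, hk', MonoidHom.mem_ker, hg]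
    constructor
    · rintro ⟨h1, h2⟩
      refine ⟨⟨hVle ?_, h2⟩, h1⟩
      rw [hk', MonoidHom.mem_ker, hg, h1]
    · rintro ⟨⟨-, h2⟩, h1⟩
      exact ⟨h1, h2⟩
  · have h1 : imP L' e = WrV X V := by
      ext π
      exact (he π).symm
    rw [← ncard_imP L' e, h1, ncard_WrV, hcN, hcM]

/-- the data of the backward direction -/
theorem backward' (L' N M : IntermediateField K Ω) (h : (Ω ≃ₐ[K] Ω) →* X) (hs : Function.Surjective h)
    (hNfd : FiniteDimensional K N) (hk : h.ker = N.fixingSubgroup) (hv : V.comap h = M.fixingSubgroup)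
    (L : IntermediateField K Ω) (hML : M ≤ L) (hLM : Module.finrank K L = 2 * Module.finrank K M)
    (hL' : L' = L ⊔ N)
    (hfull : Module.finrank K (normalClosure K L' Ω) = 2 ^ Module.finrank K M * Module.finrank K N) :
    FiniteDimensional K L' ∧ Module.finrank K L' = 2 * Nat.card X ∧
      ∃ e : (L' →ₐ[K] Ω) ≃ X × Bool, (∀ σ, (e (act L' σ L'.val)).1 = h σ) ∧
        ∀ π : Equiv.Perm (X × Bool), π ∈ WrV X V ↔
          ∃ σ : Ω ≃ₐ[K] Ω, ∀ φ : L' →ₐ[K] Ω, e (σ.toAlgHom.comp φ) = π (e φ) := by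
  subst hL'
  have i1 : IsAlgClosed Ω := IsAlgClosure.isAlgClosed K
  have i2 : Normal K Ω := IsAlgClosure.normal K Ω
  have i3 : Algebra.IsAlgebraic K Ω := IsAlgClosure.isAlgebraic
  have i4 : Algebra.IsSeparable K Ω := inferInstance
  have i5 : IsGalois K Ω := ⟨⟩
  obtain ⟨hMN, hMfd, hgal, hcN, hcM, -⟩ := pv_basic (V := V) (N := N) (M := M) ⟨hNfd, h, hs, hk, hv⟩
  have hMpos : 0 < Module.finrank K M := Module.finrank_pos
  have hNpos : 0 < Module.finrank K N := Module.finrank_pos
  have hLfd : FiniteDimensional K L := FiniteDimensional.of_finrank_pos (by omega)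
  have hfd : FiniteDimensional K (L ⊔ N : IntermediateField K Ω) := inferInstance
  -- the embeddings of `N` and of `M`
  obtain ⟨eN, heN, heN1⟩ := emb_equiv N h hs (1 : X) (by
    rw [← hk]
    ext σ
    rw [MonoidHom.mem_ker, Subgroup.mem_comap, MulAction.mem_stabilizer_iff, smul_eq_mul, mul_one])
  obtain ⟨eM, heM, heM1⟩ := emb_equiv M h hs ((1 : X) : X ⧸ V) (by
    rw [← hv, MulAction.stabilizer_quotient])
  obtain ⟨F, hF, hc⟩ := exists_pair L M hML hLM
  have hc2 : Nat.card (Over L M hML M.val) = Nat.card Bool := by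
    rw [hc]
    simp
  have hfinO : Finite (Over L M hML M.val) := Nat.finite_of_card_ne_zero (by omega)
  let β : Over L M hML M.val ≃ Bool := (Finite.card_eq.1 hc2).some
  have heN' : ∀ σ, eN (act N σ N.val) = h σ := fun σ => by
    rw [heN, heN1, smul_eq_mul, mul_one]
  have heM' : ∀ σ, eM (act M σ M.val) = (h σ : X ⧸ V) := fun σ => by
    rw [heM, heM1]
    change ((h σ * 1 : X) : X ⧸ V) = _
    rw [mul_one]
  have hF1 : ∀ σ, (F (act L σ L.val)).1 = act M σ M.val := fun σ => by
    rw [hF]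
    rfl
  -- the degree
  have hdeg : Module.finrank K (L ⊔ N : IntermediateField K Ω) = 2 * Nat.card X := by
    have hLNne : ¬ L ≤ N := by
      intro hle
      have h1 : (L ⊔ N : IntermediateField K Ω) = N := sup_eq_right.2 hle
      have h3 : normalClosure K N Ω = N := by
        have : Normal K N := inferInstance
        exact IntermediateField.normalClosure_of_normal N
      have h2 : Module.finrank K (normalClosure K (L ⊔ N : IntermediateField K Ω) Ω) = Module.finrank K N := by
        rw [h1, h3]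
      rw [h2] at hfull
      have h4 : 2 ≤ 2 ^ Module.finrank K M := by
        calc 2 = 2 ^ 1 := by norm_num
          _ ≤ 2 ^ Module.finrank K M := Nat.pow_le_pow_right (by norm_num) hMpos
      nlinarith
    have h1 : (L.fixingSubgroup).relIndex N.fixingSubgroup ∣ (L.fixingSubgroup).relIndex M.fixingSubgroup ∨
        True := Or.inr trivial
    have hLMf : L.fixingSubgroup ≤ M.fixingSubgroup := IntermediateField.fixingSubgroup_le hML
    have hNMf : N.fixingSubgroup ≤ M.fixingSubgroup := IntermediateField.fixingSubgroup_le hMN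
    have h2 : (L.fixingSubgroup).relIndex M.fixingSubgroup = 2 := by
      have h3 := Subgroup.relIndex_mul_index hLMf
      rw [← finrank_eq_fixingSubgroup_index, ← finrank_eq_fixingSubgroup_index, hLM] at h3
      exact Nat.eq_of_mul_eq_mul_right hMpos h3
    have h4 : (L.fixingSubgroup).relIndex N.fixingSubgroup ≤ 2 := by
      rw [← h2]
      exact Subgroup.relIndex_le_of_le_right hNMf (by rw [h2]; norm_num)
    have h5 : (L.fixingSubgroup).relIndex N.fixingSubgroup ≠ 1 := by
      intro h6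
      rw [Subgroup.relIndex_eq_one] at h6
      exact hLNne (le_of_fix h6)
    have h7 : (L.fixingSubgroup ⊓ N.fixingSubgroup).relIndex N.fixingSubgroup =
        (L.fixingSubgroup).relIndex N.fixingSubgroup := Subgroup.inf_relIndex_right _ _
    have h8 := Subgroup.relIndex_mul_index (inf_le_right : L.fixingSubgroup ⊓ N.fixingSubgroup ≤ N.fixingSubgroup)
    rw [h7, ← fixingSubgroup_sup, ← finrank_eq_fixingSubgroup_index, ← finrank_eq_fixingSubgroup_index] at h8
    have h9 : 0 < Module.finrank K (L ⊔ N : IntermediateField K Ω) := Module.finrank_pos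
    have h10 : (L.fixingSubgroup).relIndex N.fixingSubgroup ≠ 0 := by
      intro h11
      rw [h11, zero_mul] at h8
      omega
    have h12 : (L.fixingSubgroup).relIndex N.fixingSubgroup = 2 := by omega
    rw [← h8, h12, hcN]
  refine ⟨hfd, hdeg, ?_⟩
  -- the bijection
  choose s hsv using exists_ext (K := K) (Ω := Ω) (L ⊔ N : IntermediateField K Ω)
  let θ : (Ω ≃ₐ[K] Ω) → X × Bool := fun σ => (h σ, β (F (act L σ L.val)).2)
  have hθ : ∀ σ τ, θ σ = θ τ ↔ act (L ⊔ N : IntermediateField K Ω) σ (L ⊔ N : IntermediateField K Ω).val =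
      act (L ⊔ N : IntermediateField K Ω) τ (L ⊔ N : IntermediateField K Ω).val := by
    intro σ τ
    rw [act_val_eq, fixingSubgroup_sup, Subgroup.mem_inf, ← act_val_eq, ← act_val_eq]
    constructor
    · intro h1
      have h2 : h σ = h τ := congrArg Prod.fst h1
      have h3 : β (F (act L σ L.val)).2 = β (F (act L τ L.val)).2 := congrArg Prod.snd h1
      have h4 : act N σ N.val = act N τ N.val := by
        apply eN.injective
        rw [heN', heN', h2]
      refine ⟨?_, h4⟩
      apply F.injective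
      apply Prod.ext
      · rw [hF1, hF1]
        apply eM.injective
        rw [heM', heM', h2]
      · exact β.injective h3
    · rintro ⟨h1, h2⟩
      apply Prod.ext
      · change h σ = h τ
        rw [← heN', ← heN', h2]
      · change β (F (act L σ L.val)).2 = β (F (act L τ L.val)).2
        rw [h1]
  have hθs : ∀ σ, θ (s (act (L ⊔ N : IntermediateField K Ω) σ (L ⊔ N : IntermediateField K Ω).val)) = θ σ :=
    fun σ => (hθ _ _).2 (hsv _)
  have hinj : Function.Injective fun φ : (L ⊔ N : IntermediateField K Ω) →ₐ[K] Ω => θ (s φ) := by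
    intro φ ψ h1
    have h2 := (hθ _ _).1 h1
    rw [hsv, hsv] at h2
    exact h2
  have hbij : Function.Bijective fun φ : (L ⊔ N : IntermediateField K Ω) →ₐ[K] Ω => θ (s φ) := by
    have hf1 : Finite ((L ⊔ N : IntermediateField K Ω) →ₐ[K] Ω) := inferInstance
    rw [Nat.bijective_iff_injective_and_card]
    refine ⟨hinj, ?_⟩
    rw [card_emb, hdeg, Nat.card_prod, mul_comm]
    simp
  let e : ((L ⊔ N : IntermediateField K Ω) →ₐ[K] Ω) ≃ X × Bool := Equiv.ofBijective _ hbij
  have he : ∀ σ, e (act (L ⊔ N : IntermediateField K Ω) σ (L ⊔ N : IntermediateField K Ω).val) = θ σ := hθs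
  refine ⟨e, fun σ => by rw [he], ?_⟩
  have hsub : imP (L ⊔ N : IntermediateField K Ω) e ⊆ WrV X V := by
    rintro π ⟨σ, hσ⟩
    let A : X ⧸ V → Bool → Bool := fun q b => β (F (act L σ (F.symm (eM.symm q, β.symm b)))).2
    have hA : ∀ q, Function.Injective (A q) := by
      intro q b b' hb
      have h1 := β.injective hb
      have h2 : ∀ o, (F (act L σ (F.symm (eM.symm q, o)))).1 = act M σ (eM.symm q) := by
        intro o
        rw [hF]
        have h3 : (F (F.symm (eM.symm q, o))).1 = eM.symm q := by rw [Equiv.apply_symm_apply]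
        rw [hF] at h3
        change act M σ ((F.symm (eM.symm q, o)).comp (IntermediateField.inclusion hML)) = _
        rw [h3]
      have h4 : F (act L σ (F.symm (eM.symm q, β.symm b))) = F (act L σ (F.symm (eM.symm q, β.symm b'))) :=
        Prod.ext (by rw [h2, h2]) h1
      have h5 := F.symm.injective ((act L σ).injective (F.injective h4))
      exact β.symm.injective (congrArg Prod.snd h5)
    refine ⟨h σ, fun q => Equiv.ofBijective (A q) (Finite.injective_iff_bijective.1 (hA q)), fun x b => ?_⟩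
    obtain ⟨φ, hφ⟩ := e.surjective (x, b)
    have h1 : e (act (L ⊔ N : IntermediateField K Ω) (s φ) (L ⊔ N : IntermediateField K Ω).val) = θ (s φ) := he _
    rw [hsv, hφ] at h1
    have h2 : x = h (s φ) := congrArg Prod.fst h1
    have h3 : b = β (F (act L (s φ) L.val)).2 := congrArg Prod.snd h1
    have h4 : π (x, b) = θ (σ * s φ) := by
      rw [← hφ, ← hσ, ← he, map_mul, Equiv.Perm.mul_apply, hsv]
      rfl
    rw [h4]
    apply Prod.ext
    · change h (σ * s φ) = h σ * x
      rw [map_mul, h2]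
    · change β (F (act L (σ * s φ) L.val)).2 = β (F (act L σ (F.symm (eM.symm (x : X ⧸ V), β.symm b)))).2
      have h5 : F.symm (eM.symm (x : X ⧸ V), β.symm b) = act L (s φ) L.val := by
        rw [Equiv.symm_apply_eq]
        apply Prod.ext
        · rw [hF1]
          change eM.symm _ = _
          rw [Equiv.symm_apply_eq, heM', h2]
        · change β.symm b = _
          rw [Equiv.symm_apply_eq, h3]
      rw [h5, map_mul, Equiv.Perm.mul_apply]
  have heq : imP (L ⊔ N : IntermediateField K Ω) e = WrV X V := by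
    apply Set.eq_of_subset_of_ncard_le hsub
    rw [ncard_imP _ e, ncard_WrV, hfull, hcN, hcM]
  intro π
  rw [← heq]
  rfl

theorem backward (L' N M : IntermediateField K Ω) (h : MidV K Ω X V L' N M) :
    Module.finrank K L' = 2 * Nat.card X ∧ IsWrV K Ω X V L' := by
  obtain ⟨⟨hNfd, h, hs, hk, hv⟩, ⟨L, hML, hLM, hL'⟩, hfull⟩ := h
  obtain ⟨-, h1, e, -, he⟩ := backward' L' N M h hs hNfd hk hv L hML hLM hL' hfull
  exact ⟨h1, e, he⟩

theorem midV_fd {L' N M : IntermediateField K Ω} (h : MidV K Ω X V L' N M) : FiniteDimensional K L' := by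
  obtain ⟨⟨hNfd, h, hs, hk, hv⟩, ⟨L, hML, hLM, hL'⟩, hfull⟩ := h
  exact (backward' L' N M h hs hNfd hk hv L hML hLM hL' hfull).1

/-- `N` and `M` are determined by `L'` -/
theorem mid_unique (hV : 2 ≤ Nat.card (X ⧸ V)) (L' N M N₂ M₂ : IntermediateField K Ω)
    (h : MidV K Ω X V L' N M) (h₂ : MidV K Ω X V L' N₂ M₂) : N = N₂ ∧ M = M₂ := by
  have i1 : IsAlgClosed Ω := IsAlgClosure.isAlgClosed K
  have i2 : Normal K Ω := IsAlgClosure.normal K Ω
  have i3 : Algebra.IsAlgebraic K Ω := IsAlgClosure.isAlgebraic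
  have i4 : Algebra.IsSeparable K Ω := inferInstance
  have i5 : IsGalois K Ω := ⟨⟩
  have hX : 0 < Nat.card X := Nat.card_pos
  constructor
  · obtain ⟨hMN, hMfd, hgal, hcN, hcM, -⟩ := pv_basic h.1
    obtain ⟨-, -, hgal₂, hcN₂, -, -⟩ := pv_basic h₂.1
    have hfd := midV_fd h
    have hNL : N ≤ L' := by
      obtain ⟨-, ⟨L, -, -, rfl⟩, -⟩ := h
      exact le_sup_right
    have hNL₂ : N₂ ≤ L' := by
      obtain ⟨-, ⟨L, -, -, rfl⟩, -⟩ := h₂
      exact le_sup_right
    have hdeg := (backward L' N M h).1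
    have hfull := h.2.2
    by_contra hne
    have hsup : N ⊔ N₂ ≤ L' := sup_le hNL hNL₂
    have hfN : FiniteDimensional K N := h.1.1
    have hfN₂ : FiniteDimensional K N₂ := h₂.1.1
    have hfs : FiniteDimensional K (N ⊔ N₂ : IntermediateField K Ω) := inferInstance
    obtain ⟨j, hj⟩ := IntermediateField.finrank_dvd_of_le_right (le_sup_left : N ≤ N ⊔ N₂)
    obtain ⟨i, hi⟩ := IntermediateField.finrank_dvd_of_le_right hsup
    rw [hcN] at hj
    rw [hdeg, hj] at hi
    have hij : j * i = 2 := by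
      have : Nat.card X * (j * i) = Nat.card X * 2 := by
        rw [← mul_assoc, ← hi]; ring
      exact Nat.eq_of_mul_eq_mul_left hX this
    have hj2 : j ∣ 2 := ⟨i, hij.symm⟩
    rcases (Nat.dvd_prime Nat.prime_two).1 hj2 with rfl | rfl
    · have h5 : N = N ⊔ N₂ := IntermediateField.eq_of_le_of_finrank_eq le_sup_left (by rw [hcN, hj, mul_one])
      have h6 : N₂ = N ⊔ N₂ := IntermediateField.eq_of_le_of_finrank_eq le_sup_right (by rw [hcN₂, hj, mul_one])
      exact hne (h5.trans h6.symm)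
    · have h5 : N ⊔ N₂ = L' := IntermediateField.eq_of_le_of_finrank_eq hsup (by rw [hdeg, hj]; ring)
      have h6 : Normal K (N ⊔ N₂ : IntermediateField K Ω) := inferInstance
      have h7 : normalClosure K L' Ω = L' := by
        rw [← h5]
        exact IntermediateField.normalClosure_of_normal _
      rw [h7, hdeg, hcN, hcM] at hfull
      have h8 : 2 ^ 2 ≤ 2 ^ Nat.card (X ⧸ V) := Nat.pow_le_pow_right (by norm_num) hV
      nlinarith
  · -- `M` is the fixed field of the normalizer
    have key : ∀ N M : IntermediateField K Ω, MidV K Ω X V L' N M → ∀ σ : Ω ≃ₐ[K] Ω, σ ∈ M.fixingSubgroup ↔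
        ∀ τ : Ω ≃ₐ[K] Ω, act L' τ L'.val = L'.val ↔ act L' τ (act L' σ L'.val) = act L' σ L'.val := by
      intro N M h σ
      obtain ⟨⟨hNfd, h, hs, hk, hv⟩, ⟨L, hML, hLM, hL'⟩, hfull⟩ := h
      obtain ⟨hfd, -, e, he1, he⟩ := backward' L' N M h hs hNfd hk hv L hML hLM hL' hfull
      have hone : (e L'.val).1 = 1 := by
        have := he1 1
        rw [map_one, map_one] at this
        exact this
      change V.comap h = M.fixingSubgroup at hv
      rw [← hv, Subgroup.mem_comap]
      have h1 : h σ ∈ V ↔ (((e L'.val).1 : X) : X ⧸ V) = (((e (act L' σ L'.val)).1 : X) : X ⧸ V) := by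
        rw [he1, hone, QuotientGroup.eq, inv_one, one_mul]
      rw [h1, ← fix_iff]
      constructor
      · intro h2 τ
        let π : Equiv.Perm (X × Bool) := (e.symm.trans (act L' τ)).trans e
        have hp : ∀ χ : L' →ₐ[K] Ω, e (τ.toAlgHom.comp χ) = π (e χ) := by
          intro χ
          simp [π, act_apply]
        have := h2 π ((he π).2 ⟨τ, hp⟩)
        rw [← hp, ← hp, e.injective.eq_iff, e.injective.eq_iff] at this
        exact this
      · intro h2 π hπ
        obtain ⟨τ, hτ⟩ := (he π).1 hπ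
        rw [← hτ, ← hτ, e.injective.eq_iff, e.injective.eq_iff]
        exact h2 τ
    apply fix_inj
    ext σ
    rw [key N M h, key N₂ M₂ h₂]

/-- the number of the fields isomorphic to `L` -/
theorem conj_card (L : IntermediateField K Ω) (hW : IsWrV K Ω X V L) :
    Set.ncard {L' : IntermediateField K Ω | Nonempty (L ≃ₐ[K] L')} = Nat.card (X ⧸ V) := by
  obtain ⟨e, he⟩ := hW
  have : Algebra.IsAlgebraic K Ω := IsAlgClosure.isAlgebraic
  have : Normal K Ω := IsAlgClosure.normal K Ω
  have : IsGalois K Ω := ⟨⟩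
  have key : ∀ φ ψ : L →ₐ[K] Ω, φ.fieldRange = ψ.fieldRange ↔
      ((e φ).1 : X ⧸ V) = ((e ψ).1 : X ⧸ V) := by
    intro φ ψ
    rw [Pool.Agent.TH928.J3106.range_eq_iff, ← fix_iff]
    constructor
    · intro h π hπ
      obtain ⟨σ, hσ⟩ := (he π).1 hπ
      have := h σ
      rw [← hσ, ← hσ, e.injective.eq_iff, e.injective.eq_iff]
      exact this
    · intro h σ
      let π : Equiv.Perm (X × Bool) := (e.symm.trans (act L σ)).trans e
      have hp : ∀ χ : L →ₐ[K] Ω, e (σ.toAlgHom.comp χ) = π (e χ) := by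
        intro χ
        simp [π, act_apply]
      have hπ : π ∈ WrV X V := (he π).2 ⟨σ, hp⟩
      have := h π hπ
      rw [← hp, ← hp, e.injective.eq_iff, e.injective.eq_iff] at this
      exact this
  let f : X ⧸ V → IntermediateField K Ω := fun q => (e.symm (q.out, false)).fieldRange
  have hf : Function.Injective f := by
    intro a b hab
    have := (key _ _).1 hab
    simpa using this
  have hr : {L' : IntermediateField K Ω | Nonempty (L ≃ₐ[K] L')} = Set.range f := by
    ext L'
    constructor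
    · rintro ⟨g⟩
      refine ⟨((e (L'.val.comp g.toAlgHom)).1 : X ⧸ V), ?_⟩
      have h1 : (L'.val.comp g.toAlgHom).fieldRange = L' := by
        ext x
        constructor
        · rintro ⟨y, rfl⟩
          exact (g y).2
        · intro hx
          exact ⟨g.symm ⟨x, hx⟩, by simp⟩
      have h2 : f ((e (L'.val.comp g.toAlgHom)).1 : X ⧸ V) = (L'.val.comp g.toAlgHom).fieldRange := by
        rw [key]
        simp
      rw [h2, h1]
    · rintro ⟨h, rfl⟩
      exact ⟨AlgEquiv.ofInjectiveField (e.symm (h.out, false))⟩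
  rw [hr, Set.ncard_range_of_injective hf]

end main

end Pool.Agent.W5h46.MR
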