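import Pool.Agent.W5h46.MR.JobA2

/-!
# JOB A: the discriminant of `N(√α)` in terms of the norm of `α` and a residue class
-/

set_option autoImplicit false

open NumberField UniqueFactorizationMonoid

namespace Pool.Agent.W5h46.MR

section ideals

variable {R : Type} [CommRing R] [IsDedekindDomain R]

lemma pow_dvd_iff_count [DecidableEq (Ideal R)] {P b : Ideal R} (hP : Prime P) (hb : b ≠ 0)
    (j : ℕ) : P ^ j ∣ b ↔ j ≤ (normalizedFactors b).count P := by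
  rw [pow_dvd_iff_le_emultiplicity, emultiplicity_eq_count_normalizedFactors hP.irreducible hb,
    normalize_eq P, Nat.cast_le]

lemma dvd_of_primes {b D : Ideal R} (hb : b ≠ 0) (hD : D ≠ 0)
    (h : ∀ P : Ideal R, Prime P → ∀ j : ℕ, j ≠ 0 → P ^ j ∣ b → P ^ j ∣ D) : b ∣ D := by
  classical
  rw [dvd_iff_normalizedFactors_le_normalizedFactors hb hD, Multiset.le_iff_count]
  intro P
  by_cases hP : P ∈ normalizedFactors b
  · have hPp := prime_of_normalized_factor P hP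
    rw [← pow_dvd_iff_count hPp hD]
    refine h P hPp _ ?_ ((pow_dvd_iff_count hPp hb _).2 le_rfl)
    exact (Multiset.count_pos.2 hP).ne'
  · rw [Multiset.count_eq_zero_of_notMem hP]
    exact Nat.zero_le _

lemma dvd_of_sq {d c c' : Ideal R} (hd : Squarefree d) (hc : c ≠ 0) (hc' : c' ≠ 0)
    (h : c' ^ 2 ∣ d * c ^ 2) : c' ∣ c := by
  classical
  have hd0 : d ≠ 0 := hd.ne_zero
  rw [dvd_iff_normalizedFactors_le_normalizedFactors hc' hc, Multiset.le_iff_count]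
  intro P
  have h1 := (dvd_iff_normalizedFactors_le_normalizedFactors (pow_ne_zero 2 hc')
    (mul_ne_zero hd0 (pow_ne_zero 2 hc))).1 h
  rw [normalizedFactors_mul hd0 (pow_ne_zero 2 hc), normalizedFactors_pow,
    normalizedFactors_pow, Multiset.le_iff_count] at h1
  have h2 := h1 P
  rw [Multiset.count_add, Multiset.count_nsmul, Multiset.count_nsmul] at h2
  have h3 := Multiset.nodup_iff_count_le_one.1
    ((squarefree_iff_nodup_normalizedFactors hd0).1 hd) P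
  omega

end ideals

section

variable {M N : Type} [Field M] [NumberField M] [Field N] [NumberField N] [Algebra M N]

/-- the square part of the extension of a squarefree ideal divides the different -/
lemma sq_part_dvd {𝔡 : Ideal (𝓞 M)} (hd : Squarefree 𝔡) {d b : Ideal (𝓞 N)}
    (h : 𝔡.map (algebraMap (𝓞 M) (𝓞 N)) = d * b ^ 2) : b ∣ dif M N := by
  have h0 : d * b ^ 2 ≠ 0 := by
    rw [← h]
    exact map_ne hd.ne_zero
  have hb0 : b ≠ 0 := by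
    rintro rfl
    exact h0 (by rw [zero_pow two_ne_zero, mul_zero])
  refine dvd_of_primes hb0 dif_ne fun P hP j hj hPj => ?_
  have hP0 : P ≠ ⊥ := hP.ne_zero
  have hPp : P.IsPrime := Ideal.isPrime_of_prime hP
  have h1 : P ^ (2 * j) ∣ 𝔡.map (algebraMap (𝓞 M) (𝓞 N)) := by
    rw [h, mul_comm 2 j, pow_mul]
    exact (pow_dvd_pow_of_dvd hPj 2).mul_left d
  obtain ⟨hp, hp0⟩ := under_facts (M := M) hPp hP0
  obtain ⟨-, h3⟩ := key1 hd hPp hP0 (by omega) h1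
  have h4 := pow_dvd_dif hp hp0 P (by omega) h3
  exact (pow_dvd_pow P (by omega)).trans h4

/-- the ideal `F = 𝔠 D` of `N` -/
noncomputable def FF (N : Type) [Field N] [NumberField N] [Algebra M N] (𝔠 : Ideal (𝓞 M)) :
    Ideal (𝓞 N) := 𝔠.map (algebraMap (𝓞 M) (𝓞 N)) * dif M N

lemma FF_ne {𝔠 : Ideal (𝓞 M)} (h : 𝔠 ≠ ⊥) : FF N 𝔠 ≠ 0 := mul_ne_zero (map_ne h) dif_ne

/-- the modulus -/
noncomputable def mo (N : Type) [Field N] [NumberField N] [Algebra M N] (𝔠 : Ideal (𝓞 M)) :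
    Ideal (𝓞 M) := (Ideal.span {(4 : 𝓞 N)} * FF N 𝔠 ^ 2).comap (algebraMap (𝓞 M) (𝓞 N))

lemma mo_ne {𝔠 : Ideal (𝓞 M)} (h : 𝔠 ≠ ⊥) : mo N 𝔠 ≠ ⊥ := by
  refine Ideal.under_ne_bot (𝓞 M) ?_
  refine mul_ne_zero ?_ (pow_ne_zero 2 (FF_ne h))
  rw [Ne, Ideal.zero_eq_bot, Ideal.span_singleton_eq_bot]
  norm_num

/-- `c` is the ideal with `(α) = d c ^ 2` in `N`, `d` squarefree, and `𝔠 ∣ c ∣ F`. -/
def Dec (N : Type) [Field N] [NumberField N] [Algebra M N] (𝔠 : Ideal (𝓞 M)) (α : 𝓞 M)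
    (c d : Ideal (𝓞 N)) : Prop :=
  Squarefree d ∧ Ideal.span {algebraMap (𝓞 M) (𝓞 N) α} = d * c ^ 2 ∧
    𝔠.map (algebraMap (𝓞 M) (𝓞 N)) ∣ c ∧ c ∣ FF N 𝔠

lemma exists_dec {𝔠 : Ideal (𝓞 M)} {α : 𝓞 M} (h : Pool.Agent.TH444.ML.Sqf M 𝔠 α) :
    ∃ c d, Dec N 𝔠 α c d := by
  obtain ⟨hα, 𝔡, hd, h1⟩ := h
  obtain ⟨d1, e, hd1, he⟩ := Pool.Agent.TH914.J3087.exists_sqf
    (𝔡.map (algebraMap (𝓞 M) (𝓞 N))) (map_ne hd.ne_zero)
  refine ⟨𝔠.map (algebraMap (𝓞 M) (𝓞 N)) * e, d1, hd1, ?_, dvd_mul_right _ _,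
    mul_dvd_mul_left _ (sq_part_dvd hd he)⟩
  rw [← Set.image_singleton, ← Ideal.map_span, h1, Ideal.map_mul, Ideal.map_pow, he]
  ring

lemma dec_dvd {𝔠 : Ideal (𝓞 M)} (hc : 𝔠 ≠ ⊥) {α α' : 𝓞 M} (hm : α - α' ∈ mo N 𝔠)
    {c d c' d' : Ideal (𝓞 N)} (h : Dec N 𝔠 α c d) (h' : Dec N 𝔠 α' c' d') : c ∣ c' := by
  obtain ⟨hd, h1, h2, h3⟩ := h
  obtain ⟨hd', h1', h2', h3'⟩ := h'
  have hF := FF_ne (N := N) hc
  have hc0 : c ≠ 0 := ne_zero_of_dvd_ne_zero hF h3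
  have hc'0 : c' ≠ 0 := ne_zero_of_dvd_ne_zero hF h3'
  refine dvd_of_sq hd' hc'0 hc0 ?_
  rw [← h1', Ideal.dvd_iff_le, Ideal.span_singleton_le_iff_mem]
  have h4 : algebraMap (𝓞 M) (𝓞 N) α ∈ c ^ 2 := by
    rw [← Ideal.span_singleton_le_iff_mem, ← Ideal.dvd_iff_le, h1]
    exact dvd_mul_left _ _
  have h5 : algebraMap (𝓞 M) (𝓞 N) (α - α') ∈ c ^ 2 := by
    have h6 : algebraMap (𝓞 M) (𝓞 N) (α - α') ∈ Ideal.span {(4 : 𝓞 N)} * FF N 𝔠 ^ 2 := hm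
    have h7 : c ^ 2 ∣ Ideal.span {(4 : 𝓞 N)} * FF N 𝔠 ^ 2 :=
      (pow_dvd_pow_of_dvd h3 2).mul_left _
    exact Ideal.dvd_iff_le.1 h7 h6
  have h8 : algebraMap (𝓞 M) (𝓞 N) α' = algebraMap (𝓞 M) (𝓞 N) α -
      algebraMap (𝓞 M) (𝓞 N) (α - α') := by
    rw [map_sub]
    ring
  rw [h8]
  exact Ideal.sub_mem _ h4 h5

lemma dec_eq {𝔠 : Ideal (𝓞 M)} (hc : 𝔠 ≠ ⊥) {α α' : 𝓞 M} (hm : α - α' ∈ mo N 𝔠)
    {c d c' d' : Ideal (𝓞 N)} (h : Dec N 𝔠 α c d) (h' : Dec N 𝔠 α' c' d') : c = c' := by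
  refine dvd_antisymm (dec_dvd hc hm h h') (dec_dvd hc ?_ h' h)
  rw [← neg_sub]
  exact neg_mem hm

/-- the `r`-th power of the weight -/
noncomputable def QQ (N : Type) [Field N] [NumberField N] [Algebra M N]
    (k : Ideal (𝓞 N) → 𝓞 N → ℕ) (c : Ideal (𝓞 N)) (α : 𝓞 M) : ℝ :=
  (k c (algebraMap (𝓞 M) (𝓞 N) α) : ℝ) ^ 2 * (Ideal.absNorm c : ℝ) ^ 2 /
    4 ^ Module.finrank ℚ N

/-- the weight -/
noncomputable def wt (N : Type) [Field N] [NumberField N] [Algebra M N]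
    (k : Ideal (𝓞 N) → 𝓞 N → ℕ) (c : Ideal (𝓞 N)) (α : 𝓞 M) : ℝ :=
  QQ N k c α ^ ((Module.finrank M N : ℝ)⁻¹)

/-- `t` is the weight of the residue class of `α`. -/
def Rel (N : Type) [Field N] [NumberField N] [Algebra M N] (k : Ideal (𝓞 N) → 𝓞 N → ℕ)
    (𝔠 : Ideal (𝓞 M)) (α : 𝓞 M) (t : ℝ) : Prop :=
  ∃ (α' : 𝓞 M) (c d : Ideal (𝓞 N)), α - α' ∈ mo N 𝔠 ∧ Dec N 𝔠 α' c d ∧ t = wt N k c α'

open Classical in
/-- a number with the property `R`, if there is one -/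
noncomputable def val (R : ℝ → Prop) (t0 : ℝ) : ℝ := if h : ∃ t, R t then h.choose else t0

/-- the weight of the residue class of `α` -/
noncomputable def gg (N : Type) [Field N] [NumberField N] [Algebra M N]
    (k : Ideal (𝓞 N) → 𝓞 N → ℕ) (𝔠 : Ideal (𝓞 M)) (α : 𝓞 M) : ℝ :=
  val (Rel N k 𝔠 α) ((Ideal.absNorm 𝔠 : ℝ) ^ 2 / 4 ^ Module.finrank ℚ M)

lemma rel_congr (k : Ideal (𝓞 N) → 𝓞 N → ℕ) (𝔠 : Ideal (𝓞 M)) {α α' : 𝓞 M}
    (h : α - α' ∈ mo N 𝔠) : Rel N k 𝔠 α = Rel N k 𝔠 α' := by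
  funext t
  apply propext
  constructor
  · rintro ⟨β, c, d, h1, h2, h3⟩
    refine ⟨β, c, d, ?_, h2, h3⟩
    have := sub_mem h1 h
    rwa [sub_sub_sub_cancel_left] at this
  · rintro ⟨β, c, d, h1, h2, h3⟩
    refine ⟨β, c, d, ?_, h2, h3⟩
    have := add_mem h h1
    rwa [sub_add_sub_cancel] at this

lemma gg_congr (k : Ideal (𝓞 N) → 𝓞 N → ℕ) (𝔠 : Ideal (𝓞 M)) {α α' : 𝓞 M}
    (h : α - α' ∈ mo N 𝔠) : gg N k 𝔠 α = gg N k 𝔠 α' := by
  unfold gg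
  rw [rel_congr k 𝔠 h]

lemma rel_unique {k : Ideal (𝓞 N) → 𝓞 N → ℕ} (hk : Pool.Agent.TH444.ML.IsK N k)
    {𝔠 : Ideal (𝓞 M)} (hc : 𝔠 ≠ ⊥) {α : 𝓞 M} {t t' : ℝ} (h : Rel N k 𝔠 α t)
    (h' : Rel N k 𝔠 α t') : t = t' := by
  obtain ⟨β, c, d, h1, h2, rfl⟩ := h
  obtain ⟨β', c', d', h1', h2', rfl⟩ := h'
  have hm : β - β' ∈ mo N 𝔠 := by
    have := sub_mem h1' h1
    rwa [sub_sub_sub_cancel_left] at this
  have hcc := dec_eq hc hm h2 h2'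
  subst hcc
  have hc0 : c ≠ 0 := ne_zero_of_dvd_ne_zero (FF_ne (N := N) hc) h2.2.2.2
  have h3 : k c (algebraMap (𝓞 M) (𝓞 N) β) = k c (algebraMap (𝓞 M) (𝓞 N) β') := by
    apply hk.congr c _ _ hc0
    rw [← map_sub]
    have h6 : algebraMap (𝓞 M) (𝓞 N) (β - β') ∈ Ideal.span {(4 : 𝓞 N)} * FF N 𝔠 ^ 2 := hm
    have h7 : Ideal.span {(4 : 𝓞 N)} * c ^ 2 ∣ Ideal.span {(4 : 𝓞 N)} * FF N 𝔠 ^ 2 :=
      mul_dvd_mul_left _ (pow_dvd_pow_of_dvd h2.2.2.2 2)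
    exact Ideal.dvd_iff_le.1 h7 h6
  unfold wt QQ
  rw [h3]

lemma gg_eq {k : Ideal (𝓞 N) → 𝓞 N → ℕ} (hk : Pool.Agent.TH444.ML.IsK N k)
    {𝔠 : Ideal (𝓞 M)} (hc : 𝔠 ≠ ⊥) {α : 𝓞 M} {c d : Ideal (𝓞 N)} (h : Dec N 𝔠 α c d) :
    gg N k 𝔠 α = wt N k c α := by
  have h1 : Rel N k 𝔠 α (wt N k c α) := ⟨α, c, d, by rw [sub_self]; exact zero_mem _, h, rfl⟩
  have h2 : ∃ t, Rel N k 𝔠 α t := ⟨_, h1⟩
  unfold gg val
  rw [dif_pos h2]
  exact rel_unique hk hc h2.choose_spec h1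

lemma wt_pow (k : Ideal (𝓞 N) → 𝓞 N → ℕ) (c : Ideal (𝓞 N)) (α : 𝓞 M) :
    wt N k c α ^ Module.finrank M N = QQ N k c α := by
  unfold wt
  apply Real.rpow_inv_natCast_pow _ Module.finrank_pos.ne'
  unfold QQ
  positivity

omit [NumberField M] in
lemma wt_nonneg (k : Ideal (𝓞 N) → 𝓞 N → ℕ) (c : Ideal (𝓞 N)) (α : 𝓞 M) :
    0 ≤ wt N k c α := by
  unfold wt QQ
  positivity

lemma one_le_norm {I : Ideal (𝓞 N)} (h : I ≠ 0) : (1 : ℝ) ≤ Ideal.absNorm I := by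
  have : Ideal.absNorm I ≠ 0 := by
    rw [Ne, Ideal.absNorm_eq_zero_iff]
    exact h
  exact_mod_cast Nat.one_le_iff_ne_zero.2 this

lemma wt_bounds {k : Ideal (𝓞 N) → 𝓞 N → ℕ} (hk : Pool.Agent.TH444.ML.IsK N k)
    {𝔠 : Ideal (𝓞 M)} (hc : 𝔠 ≠ ⊥) {α : 𝓞 M} {c d : Ideal (𝓞 N)} (h : Dec N 𝔠 α c d) :
    (Ideal.absNorm 𝔠 : ℝ) ^ 2 / 4 ^ Module.finrank ℚ M ≤ wt N k c α ∧
      wt N k c α ≤ (4 ^ Module.finrank ℚ M * (Ideal.absNorm (dif M N) : ℝ) ^ 2) *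
        (Ideal.absNorm 𝔠 : ℝ) ^ 2 := by
  obtain ⟨h1, h2, h3, h4⟩ := h
  have hc0 : c ≠ 0 := ne_zero_of_dvd_ne_zero (FF_ne (N := N) hc) h4
  have hr : Module.finrank M N ≠ 0 := Module.finrank_pos.ne'
  have hk1 : (1 : ℝ) ≤ k c (algebraMap (𝓞 M) (𝓞 N) α) := by
    exact_mod_cast hk.pos c _ hc0
  have hk2 : (k c (algebraMap (𝓞 M) (𝓞 N) α) : ℝ) ≤ 4 ^ Module.finrank ℚ N := by
    exact_mod_cast hk.le c _ hc0
  have hn1 : (Ideal.absNorm 𝔠 : ℝ) ^ Module.finrank M N ≤ Ideal.absNorm c := by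
    have h5 : Ideal.absNorm (𝔠.map (algebraMap (𝓞 M) (𝓞 N))) ≤ Ideal.absNorm c := by
      apply Nat.le_of_dvd
      · exact Nat.pos_of_ne_zero (by rw [Ne, Ideal.absNorm_eq_zero_iff]; exact hc0)
      · exact map_dvd Ideal.absNorm h3
    rw [absNorm_map] at h5
    exact_mod_cast h5
  have hn2 : (Ideal.absNorm c : ℝ) ≤ (Ideal.absNorm 𝔠 : ℝ) ^ Module.finrank M N *
      Ideal.absNorm (dif M N) := by
    have h5 : Ideal.absNorm c ≤ Ideal.absNorm (FF N 𝔠) := by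
      apply Nat.le_of_dvd
      · exact Nat.pos_of_ne_zero (by rw [Ne, Ideal.absNorm_eq_zero_iff]; exact FF_ne hc)
      · exact map_dvd Ideal.absNorm h4
    unfold FF at h5
    rw [map_mul, absNorm_map] at h5
    exact_mod_cast h5
  have hD : (1 : ℝ) ≤ Ideal.absNorm (dif M N) := one_le_norm dif_ne
  have hfin : (4 : ℝ) ^ Module.finrank ℚ N =
      (4 ^ Module.finrank ℚ M) ^ Module.finrank M N := by
    rw [← pow_mul, Module.finrank_mul_finrank]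
  constructor
  · apply le_of_pow_le_pow_left₀ hr (wt_nonneg k c α)
    rw [wt_pow, div_pow, ← hfin]
    unfold QQ
    apply div_le_div_of_nonneg_right _ (by positivity)
    calc ((Ideal.absNorm 𝔠 : ℝ) ^ 2) ^ Module.finrank M N
        = ((Ideal.absNorm 𝔠 : ℝ) ^ Module.finrank M N) ^ 2 := by ring
      _ ≤ (Ideal.absNorm c : ℝ) ^ 2 := pow_le_pow_left₀ (by positivity) hn1 2
      _ ≤ (k c (algebraMap (𝓞 M) (𝓞 N) α) : ℝ) ^ 2 * (Ideal.absNorm c : ℝ) ^ 2 :=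
          le_mul_of_one_le_left (by positivity) (one_le_pow₀ hk1)
  · apply le_of_pow_le_pow_left₀ hr (by positivity)
    rw [wt_pow]
    unfold QQ
    rw [div_le_iff₀ (by positivity)]
    calc (k c (algebraMap (𝓞 M) (𝓞 N) α) : ℝ) ^ 2 * (Ideal.absNorm c : ℝ) ^ 2
        ≤ (4 ^ Module.finrank ℚ N) ^ 2 * ((Ideal.absNorm 𝔠 : ℝ) ^ Module.finrank M N *
            Ideal.absNorm (dif M N)) ^ 2 := by
          apply mul_le_mul (pow_le_pow_left₀ (by positivity) hk2 2)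
            (pow_le_pow_left₀ (by positivity) hn2 2) (by positivity) (by positivity)
      _ = (4 ^ Module.finrank ℚ N * (Ideal.absNorm (dif M N) : ℝ) ^ 2 *
            ((Ideal.absNorm 𝔠 : ℝ) ^ Module.finrank M N) ^ 2) * 4 ^ Module.finrank ℚ N := by ring
      _ ≤ ((4 ^ Module.finrank ℚ M * (Ideal.absNorm (dif M N) : ℝ) ^ 2 *
            (Ideal.absNorm 𝔠 : ℝ) ^ 2) ^ Module.finrank M N) * 4 ^ Module.finrank ℚ N := by
          apply mul_le_mul_of_nonneg_right _ (by positivity)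
          rw [mul_pow, mul_pow, ← hfin]
          have h6 : (Ideal.absNorm (dif M N) : ℝ) ^ 2 ≤
              ((Ideal.absNorm (dif M N) : ℝ) ^ 2) ^ Module.finrank M N :=
            le_self_pow₀ (one_le_pow₀ hD) hr
          calc 4 ^ Module.finrank ℚ N * (Ideal.absNorm (dif M N) : ℝ) ^ 2 *
                ((Ideal.absNorm 𝔠 : ℝ) ^ Module.finrank M N) ^ 2
              ≤ 4 ^ Module.finrank ℚ N * ((Ideal.absNorm (dif M N) : ℝ) ^ 2) ^
                  Module.finrank M N * ((Ideal.absNorm 𝔠 : ℝ) ^ Module.finrank M N) ^ 2 := by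
                gcongr
            _ = _ := by ring

lemma nrm_pow (α : 𝓞 M) : Pool.Agent.TH444.ML.nrm α ^ Module.finrank M N =
    Ideal.absNorm (Ideal.span {algebraMap (𝓞 M) (𝓞 N) α}) := by
  have h1 : Ideal.span {algebraMap (𝓞 M) (𝓞 N) α} =
      (Ideal.span {α}).map (algebraMap (𝓞 M) (𝓞 N)) := by
    rw [Ideal.map_span, Set.image_singleton]
  rw [h1, absNorm_map, Ideal.absNorm_span_singleton]
  unfold Pool.Agent.TH444.ML.nrm
  rw [Nat.cast_pow, Nat.cast_natAbs]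

/-- the condition on the discriminant -/
lemma disc_iff {k : Ideal (𝓞 N) → 𝓞 N → ℕ} (hk : Pool.Agent.TH444.ML.IsK N k)
    {𝔠 : Ideal (𝓞 M)} (hc : 𝔠 ≠ ⊥) {α : 𝓞 M} (hα : α ≠ 0) {c d : Ideal (𝓞 N)}
    (h : Dec N 𝔠 α c d) {E : Type} [Field E] [Algebra M E] [Algebra N E] [IsScalarTower M N E]
    (s : E) (hs : s ^ 2 = algebraMap M E (α : M)) (hn : ∀ x : N, algebraMap N E x ≠ s)
    (Y : ℝ) (hY : 0 ≤ Y) :
    (∃ h : NumberField (IntermediateField.adjoin N {s}),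
      ((|@discr (IntermediateField.adjoin N {s}) _ h| : ℤ) : ℝ) ≤
        Y ^ Module.finrank M N * ((discr N : ℤ) : ℝ) ^ 2) ↔
      Pool.Agent.TH444.ML.nrm α ≤ Y * wt N k c α := by
  obtain ⟨h1, h2, h3, h4⟩ := h
  have hc0 : c ≠ 0 := ne_zero_of_dvd_ne_zero (FF_ne (N := N) hc) h4
  have hβ : algebraMap (𝓞 M) (𝓞 N) α ≠ 0 := by
    rw [Ne, FaithfulSMul.algebraMap_eq_zero_iff]
    exact hα
  have hβE : s ^ 2 = algebraMap N E ((algebraMap (𝓞 M) (𝓞 N) α : 𝓞 N) : N) := by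
    rw [hs, IsScalarTower.algebraMap_apply M N E]
    rfl
  have hf2 := Pool.Agent.TH914.J3087.finrank_two hβE hn
  have hfd : FiniteDimensional N (IntermediateField.adjoin N {s}) :=
    Module.finite_of_finrank_pos (by rw [hf2]; norm_num)
  have hnf : NumberField (IntermediateField.adjoin N {s}) := NumberField.of_module_finite N _
  have hdisc := disc_adjoin hk (algebraMap (𝓞 M) (𝓞 N) α) s d c hβ h1 h2 hβE hn hnf
  set A : ℝ := ((|@discr (IntermediateField.adjoin N {s}) _ hnf| : ℤ) : ℝ) with hA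
  have e1 : (∃ h : NumberField (IntermediateField.adjoin N {s}),
      ((|@discr (IntermediateField.adjoin N {s}) _ h| : ℤ) : ℝ) ≤
        Y ^ Module.finrank M N * ((discr N : ℤ) : ℝ) ^ 2) ↔
      A ≤ Y ^ Module.finrank M N * ((discr N : ℤ) : ℝ) ^ 2 :=
    ⟨fun ⟨_, h⟩ => h, fun h => ⟨hnf, h⟩⟩
  rw [e1]
  have hk1 : (1 : ℝ) ≤ k c (algebraMap (𝓞 M) (𝓞 N) α) := by
    exact_mod_cast hk.pos c _ hc0
  have hN1 : (1 : ℝ) ≤ Ideal.absNorm c := one_le_norm hc0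
  set q : ℝ := 4 ^ Module.finrank ℚ N with hq
  have hq0 : 0 < q := by positivity
  set K : ℝ := (k c (algebraMap (𝓞 M) (𝓞 N) α) : ℝ) with hK
  set n2 : ℝ := (Ideal.absNorm c : ℝ) with hn2
  set Δ : ℝ := ((discr N : ℤ) : ℝ) ^ 2 with hΔ
  have hΔ0 : 0 < Δ := by
    have : ((discr N : ℤ) : ℝ) ≠ 0 := by exact_mod_cast discr_ne_zero N
    rw [hΔ]
    positivity
  have h5 : A * K ^ 2 = q * Δ * (Ideal.absNorm d : ℝ) := by
    have h5 := congrArg (fun x : ℕ => (x : ℝ)) hdisc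
    simp only [Nat.cast_mul, Nat.cast_pow, Nat.cast_natAbs, Nat.cast_ofNat] at h5
    rw [hA, hq, hK, h5]
    congr 2
    rw [hΔ, Int.cast_abs, sq_abs]
  have h6 : Pool.Agent.TH444.ML.nrm α ^ Module.finrank M N = (Ideal.absNorm d : ℝ) * n2 ^ 2 := by
    rw [nrm_pow (N := N), h2, map_mul, map_pow, Nat.cast_mul, Nat.cast_pow]
  have h7 : A * (K ^ 2 * n2 ^ 2) = q * Δ * Pool.Agent.TH444.ML.nrm α ^ Module.finrank M N := by
    rw [h6]
    calc A * (K ^ 2 * n2 ^ 2) = (A * K ^ 2) * n2 ^ 2 := by ring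
      _ = _ := by rw [h5]; ring
  have h8 : 0 < K ^ 2 * n2 ^ 2 := by positivity
  have hnn : 0 ≤ Pool.Agent.TH444.ML.nrm α := by
    unfold Pool.Agent.TH444.ML.nrm
    exact_mod_cast abs_nonneg _
  have h9 : Pool.Agent.TH444.ML.nrm α ≤ Y * wt N k c α ↔
      Pool.Agent.TH444.ML.nrm α ^ Module.finrank M N ≤ (Y * wt N k c α) ^ Module.finrank M N :=
    (pow_le_pow_iff_left₀ hnn (mul_nonneg hY (wt_nonneg k c α)) Module.finrank_pos.ne').symm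
  rw [h9, mul_pow, wt_pow]
  unfold QQ
  rw [← hq, ← hK, ← hn2]
  set m := Pool.Agent.TH444.ML.nrm α ^ Module.finrank M N
  set y := Y ^ Module.finrank M N
  constructor
  · intro h
    have h10 : A * (K ^ 2 * n2 ^ 2) ≤ (y * Δ) * (K ^ 2 * n2 ^ 2) :=
      mul_le_mul_of_nonneg_right h h8.le
    rw [h7] at h10
    rw [mul_div_assoc', le_div_iff₀ hq0]
    have h11 : Δ * (m * q) ≤ Δ * (y * (K ^ 2 * n2 ^ 2)) := by
      calc Δ * (m * q) = q * Δ * m := by ring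
        _ ≤ (y * Δ) * (K ^ 2 * n2 ^ 2) := h10
        _ = _ := by ring
    exact le_of_mul_le_mul_left h11 hΔ0
  · intro h
    rw [mul_div_assoc', le_div_iff₀ hq0] at h
    have h10 : A * (K ^ 2 * n2 ^ 2) ≤ (y * Δ) * (K ^ 2 * n2 ^ 2) := by
      rw [h7]
      calc q * Δ * m = Δ * (m * q) := by ring
        _ ≤ Δ * (y * (K ^ 2 * n2 ^ 2)) := mul_le_mul_of_nonneg_left h hΔ0.le
        _ = _ := by ring
    exact le_of_mul_le_mul_right h10 h8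

theorem wtR : WtR := by
  intro M N _ _ _ _ _
  obtain ⟨k, hk⟩ := Pool.Agent.TH263.J3086.discQuad N
  have hD : (1 : ℝ) ≤ Ideal.absNorm (dif M N) := one_le_norm dif_ne
  refine ⟨4 ^ Module.finrank ℚ M * (Ideal.absNorm (dif M N) : ℝ) ^ 2, by positivity,
    fun 𝔠 hc => ⟨mo N 𝔠, gg N k 𝔠, mo_ne hc, fun α α' h => gg_congr k 𝔠 h, fun α => ?_, ?_⟩⟩
  · by_cases h : ∃ t, Rel N k 𝔠 α t
    · have h1 := h.choose_spec
      have h2 : gg N k 𝔠 α = h.choose := by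
        unfold gg val
        rw [dif_pos h]
      rw [h2]
      obtain ⟨β, c, d, -, h3, h4⟩ := h1
      rw [h4]
      exact wt_bounds hk hc h3
    · unfold gg val
      rw [dif_neg h]
      refine ⟨le_rfl, ?_⟩
      have h4 : (1 : ℝ) ≤ 4 ^ Module.finrank ℚ M := one_le_pow₀ (by norm_num)
      calc (Ideal.absNorm 𝔠 : ℝ) ^ 2 / 4 ^ Module.finrank ℚ M ≤ (Ideal.absNorm 𝔠 : ℝ) ^ 2 :=
            div_le_self (by positivity) h4
        _ ≤ _ := le_mul_of_one_le_left (by positivity)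
            (one_le_mul_of_one_le_of_one_le h4 (one_le_pow₀ hD))
  · intro E _ _ _ _ α s hα hs hn Y hY
    obtain ⟨c, d, h⟩ := exists_dec (N := N) hα
    rw [gg_eq hk hc h]
    exact disc_iff hk hc hα.1 h s hs hn Y hY

end

end Pool.Agent.W5h46.MR
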