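import Pool.Agent.W5h46.MR.Defs
import Pool.Agent.TH293.J3093

/-!
# The number of squarefree divisors of an ideal
-/

set_option autoImplicit false

open NumberField Filter Topology

namespace Pool.Agent.W5h46.MR

open Pool.Agent.TH444.ML (IdealUnif)

open UniqueFactorizationMonoid in
/-- the number of squarefree divisors is at most `2 ^ #primes` -/
theorem sqfDiv_card (M : Type) [Field M] [NumberField M] [DecidableEq (Ideal (𝓞 M))]
    (R : Ideal (𝓞 M)) (hR : R ≠ ⊥) :
    {r : Ideal (𝓞 M) | Squarefree r ∧ r ∣ R}.Finite ∧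
      Set.ncard {r : Ideal (𝓞 M) | Squarefree r ∧ r ∣ R} ≤
        2 ^ (normalizedFactors R).toFinset.card := by
  classical
  set S : Finset (Ideal (𝓞 M)) := (normalizedFactors R).toFinset with hS
  let f : Ideal (𝓞 M) → Finset (Ideal (𝓞 M)) := fun r => (normalizedFactors r).toFinset
  have hmaps : ∀ r ∈ {r : Ideal (𝓞 M) | Squarefree r ∧ r ∣ R},
      f r ∈ (S.powerset : Set (Finset (Ideal (𝓞 M)))) := by
    rintro r ⟨hr, hrR⟩
    rw [Finset.mem_coe, Finset.mem_powerset]
    intro P hP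
    rw [hS, Multiset.mem_toFinset]
    have hP' : P ∈ normalizedFactors r := Multiset.mem_toFinset.1 hP
    exact Multiset.mem_of_le
      ((dvd_iff_normalizedFactors_le_normalizedFactors hr.ne_zero hR).1 hrR) hP'
  have hinj : Set.InjOn f {r : Ideal (𝓞 M) | Squarefree r ∧ r ∣ R} := by
    rintro r ⟨hr, -⟩ r' ⟨hr', -⟩ h
    have h1 := (squarefree_iff_nodup_normalizedFactors hr.ne_zero).1 hr
    have h2 := (squarefree_iff_nodup_normalizedFactors hr'.ne_zero).1 hr'
    have h3 : normalizedFactors r = normalizedFactors r' := by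
      have h4 : (normalizedFactors r).toFinset.val = (normalizedFactors r').toFinset.val :=
        congrArg Finset.val h
      rw [Multiset.toFinset_val, Multiset.toFinset_val, Multiset.dedup_eq_self.2 h1,
        Multiset.dedup_eq_self.2 h2] at h4
      exact h4
    rw [← Ideal.prod_normalizedFactors_eq_self (I := r) hr.ne_zero,
      ← Ideal.prod_normalizedFactors_eq_self (I := r') hr'.ne_zero, h3]
  refine ⟨?_, ?_⟩
  · refine Set.Finite.of_finite_image (f := f) (S.powerset.finite_toSet.subset ?_) hinj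
    rintro _ ⟨r, hr, rfl⟩
    exact hmaps r hr
  · have := Set.ncard_le_ncard_of_injOn f hmaps hinj S.powerset.finite_toSet
    rwa [Set.ncard_coe_finset, Finset.card_powerset] at this

open UniqueFactorizationMonoid in
/-- the number of squarefree divisors of `R` is at most `C_ε N(R) ^ ε`, uniformly in the field -/
theorem sqfDiv (h3 : IdealUnif) (D : ℕ) (ε : ℝ) (hε : 0 < ε) : ∃ C : ℝ, 1 ≤ C ∧
    ∀ (M : Type) [Field M] [NumberField M], Module.finrank ℚ M = D →
    ∀ R : Ideal (𝓞 M), R ≠ ⊥ → {r : Ideal (𝓞 M) | Squarefree r ∧ r ∣ R}.Finite ∧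
      (Set.ncard {r : Ideal (𝓞 M) | Squarefree r ∧ r ∣ R} : ℝ) ≤
        C * (Ideal.absNorm R : ℝ) ^ ε := by
  classical
  obtain ⟨CI, hCI⟩ := h3 D
  set B : ℝ := 2 ^ (1 / ε) with hB
  have hB1 : 1 ≤ B := Real.one_le_rpow (by norm_num) (by positivity)
  have hBε : B ^ ε = 2 := by
    rw [hB, ← Real.rpow_mul (by norm_num), one_div_mul_cancel hε.ne', Real.rpow_one]
  set K : ℕ := ⌈|CI| * B ^ (5 / 4 : ℝ)⌉₊ with hK
  refine ⟨2 ^ K, one_le_pow₀ (by norm_num), ?_⟩
  intro M _ _ hD R hR
  obtain ⟨hfin, hcard⟩ := sqfDiv_card M R hR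
  refine ⟨hfin, ?_⟩
  set S : Finset (Ideal (𝓞 M)) := (normalizedFactors R).toFinset with hS
  set S1 : Finset (Ideal (𝓞 M)) := S.filter fun P => (Ideal.absNorm P : ℝ) ≤ B with hS1
  set S2 : Finset (Ideal (𝓞 M)) := S.filter fun P => ¬ (Ideal.absNorm P : ℝ) ≤ B with hS2
  have hsum : S1.card + S2.card = S.card := Finset.card_filter_add_card_filter_not _
  have ha : S1.card ≤ K := by
    have h5 : S1.card ≤ {I : Ideal (𝓞 M) | I ≠ ⊥ ∧ (Ideal.absNorm I : ℝ) ≤ B}.ncard := by
      rw [← Set.ncard_coe_finset]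
      refine Set.ncard_le_ncard ?_ (hCI M hD B hB1).1
      intro P hP
      rw [Finset.mem_coe, hS1, Finset.mem_filter, hS, Multiset.mem_toFinset] at hP
      exact ⟨(irreducible_of_normalized_factor P hP.1).ne_zero, hP.2⟩
    have h6 : (S1.card : ℝ) ≤ |CI| * B ^ (5 / 4 : ℝ) := by
      refine le_trans (by exact_mod_cast h5) (((hCI M hD B hB1).2).trans ?_)
      exact mul_le_mul_of_nonneg_right (le_abs_self _) (Real.rpow_nonneg (by linarith) _)
    have h7 : (S1.card : ℝ) ≤ K := h6.trans (Nat.le_ceil _)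
    exact_mod_cast h7
  have hb : (2 : ℝ) ^ S2.card ≤ (Ideal.absNorm R : ℝ) ^ ε := by
    have h5 : (2 : ℝ) ^ S2.card ≤ ∏ P ∈ S2, (Ideal.absNorm P : ℝ) ^ ε := by
      rw [← Finset.prod_const]
      refine Finset.prod_le_prod (fun _ _ => by norm_num) fun P hP => ?_
      rw [hS2, Finset.mem_filter, not_le] at hP
      rw [← hBε]
      exact Real.rpow_le_rpow (by linarith) hP.2.le hε.le
    refine h5.trans ?_
    rw [Real.finsetProd_rpow _ _ (fun P _ => Nat.cast_nonneg _)]
    refine Real.rpow_le_rpow (Finset.prod_nonneg fun P _ => Nat.cast_nonneg _) ?_ hε.le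
    have h6 : (∏ P ∈ S2, P) ∣ R := by
      have h7 : (∏ P ∈ S2, P) = S2.val.prod := Finset.prod_eq_multiset_prod _ _ |>.trans (by simp)
      rw [h7]
      have h8 : S2.val ≤ normalizedFactors R :=
        (Finset.val_le_iff.2 (Finset.filter_subset _ _)).trans
          (by rw [hS, Multiset.toFinset_val]; exact Multiset.dedup_le _)
      have h9 := Multiset.prod_dvd_prod_of_le h8
      rwa [Ideal.prod_normalizedFactors_eq_self hR] at h9
    have h7 : Ideal.absNorm (∏ P ∈ S2, P) ∣ Ideal.absNorm R := map_dvd _ h6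
    have h8 : Ideal.absNorm R ≠ 0 := by
      rw [Ne, Ideal.absNorm_eq_zero_iff]
      exact hR
    have h9 := Nat.le_of_dvd (Nat.pos_of_ne_zero h8) h7
    rw [map_prod] at h9
    exact_mod_cast h9
  calc (Set.ncard {r : Ideal (𝓞 M) | Squarefree r ∧ r ∣ R} : ℝ) ≤ 2 ^ S.card := by
        exact_mod_cast hcard
    _ = 2 ^ S1.card * 2 ^ S2.card := by rw [← hsum, pow_add]
    _ ≤ 2 ^ K * (Ideal.absNorm R : ℝ) ^ ε := by
        refine mul_le_mul (pow_le_pow_right₀ (by norm_num) ha) hb (by positivity) (by positivity)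

end Pool.Agent.W5h46.MR
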