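import Pool.Agent.W5h46.MR.TDef

/-!
# The sum over the pairs `(N, M)`
-/

set_option autoImplicit false

open IntermediateField

namespace Pool.Agent.W5h46.MR

open Pool.Agent.TH444.ML (dsc)

theorem dsc_nonneg {K Ω : Type} [Field K] [Field Ω] [Algebra K Ω] (M : IntermediateField K Ω) :
    0 ≤ dsc M := by
  unfold dsc
  split_ifs with h
  · exact_mod_cast abs_nonneg _
  · exact zero_le_one

/-- every `N` occurs in at most `c` pairs -/
theorem fin_pv {K Ω X : Type} [Field K] [NumberField K] [Field Ω] [Algebra K Ω]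
    [IsAlgClosure K Ω] [Group X] [Finite X] (V : Subgroup X) :
    ∃ c : ℕ, ∀ N : IntermediateField K Ω,
      {M : IntermediateField K Ω | (N, M) ∈ PV K Ω X V}.Finite ∧
      {M : IntermediateField K Ω | (N, M) ∈ PV K Ω X V}.ncard ≤ c := by
  have i2 : Normal K Ω := IsAlgClosure.normal K Ω
  have i3 : Algebra.IsAlgebraic K Ω := IsAlgClosure.isAlgebraic
  have i4 : Algebra.IsSeparable K Ω := inferInstance
  have i5 : IsGalois K Ω := ⟨⟩
  refine ⟨Nat.card (Subgroup X), fun N => ?_⟩
  rcases Set.eq_empty_or_nonempty {M : IntermediateField K Ω | (N, M) ∈ PV K Ω X V} with he | ⟨M0, hM0⟩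
  · rw [he]
    exact ⟨Set.finite_empty, by simp⟩
  obtain ⟨-, h0, hs0, hk0, -⟩ := hM0
  simp only at hk0
  have hinj : Set.InjOn (fun M : IntermediateField K Ω => M.fixingSubgroup.map h0)
      {M : IntermediateField K Ω | (N, M) ∈ PV K Ω X V} := by
    have key : ∀ M : IntermediateField K Ω, (N, M) ∈ PV K Ω X V →
        (M.fixingSubgroup.map h0).comap h0 = M.fixingSubgroup := by
      rintro M ⟨-, h, hs, hk, hv⟩
      simp only at hk hv
      rw [Subgroup.comap_map_eq, hk0, ← hk, ← hv]
      refine sup_eq_left.2 ?_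
      intro σ hσ
      rw [MonoidHom.mem_ker] at hσ
      rw [Subgroup.mem_comap, hσ]
      exact one_mem _
    intro M hM M' hM' hMM
    apply fix_inj
    rw [← key M hM, ← key M' hM']
    exact congrArg (Subgroup.comap h0) hMM
  have hf : (Set.univ : Set (Subgroup X)).Finite := Set.finite_univ
  refine ⟨Set.Finite.of_injOn (fun _ _ => Set.mem_univ _) hinj hf, ?_⟩
  rw [← Set.ncard_univ]
  exact Set.ncard_le_ncard_of_injOn _ (fun _ _ => Set.mem_univ _) hinj hf

/-- summability of a composition with a map with small fibres -/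
theorem summable_comp_of_fibres {α β : Type} (f : α → β) (g : β → ℝ) (hg0 : ∀ b, 0 ≤ g b)
    (hg : Summable g) (c : ℕ) (hc : ∀ b, (f ⁻¹' {b}).Finite ∧ (f ⁻¹' {b}).ncard ≤ c) :
    Summable fun a => g (f a) := by
  classical
  refine summable_of_sum_le (c := c * ∑' b, g b) (fun a => hg0 _) fun s => ?_
  rw [Finset.sum_comp g f]
  calc ∑ b ∈ s.image f, (s.filter fun a => f a = b).card • g b
      ≤ ∑ b ∈ s.image f, (c : ℝ) * g b := by
        refine Finset.sum_le_sum fun b _ => ?_
        rw [nsmul_eq_mul]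
        refine mul_le_mul_of_nonneg_right ?_ (hg0 b)
        have h1 : (s.filter fun a => f a = b).card ≤ (f ⁻¹' {b}).ncard := by
          rw [← Set.ncard_coe_finset]
          refine Set.ncard_le_ncard ?_ (hc b).1
          intro a ha
          simp only [Finset.coe_filter, Set.mem_ofPred_eq] at ha
          exact ha.2
        exact_mod_cast h1.trans (hc b).2
    _ = c * ∑ b ∈ s.image f, g b := by rw [Finset.mul_sum]
    _ ≤ c * ∑' b, g b := by
        refine mul_le_mul_of_nonneg_left ?_ (Nat.cast_nonneg c)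
        exact hg.sum_le_tsum _ fun b _ => hg0 b

theorem sumPV (hf : FewS) {K Ω X : Type} [Field K] [NumberField K] [Field Ω] [Algebra K Ω]
    [IsAlgClosure K Ω] [Group X] [Finite X] (V U : Subgroup X) (hU : U.normalCore = ⊥)
    (hc : 16 * U.index * (U.index + 1) ≤ V.index) :
    Summable (fun p : PV K Ω X V => (dsc p.1.1) ^ (-(1 / (8 * Nat.card V)) : ℝ)) := by
  obtain ⟨c, hfin⟩ := fin_pv (K := K) (Ω := Ω) V
  have hV : 1 ≤ Nat.card V := Nat.card_pos
  have h1 := hf K Ω X U (2 * Nat.card V) hU (by omega) (by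
    calc 8 * U.index * (U.index + 1) * (2 * Nat.card V)
        = 16 * U.index * (U.index + 1) * Nat.card V := by ring
      _ ≤ V.index * Nat.card V := Nat.mul_le_mul_right _ hc
      _ = Nat.card X := V.index_mul_card)
  have h2 := summable_comp_of_fibres (α := PV K Ω X V)
    (fun p => (⟨p.1.1, (pv_basic (X := X) (V := V) p.2).2.2.2.2.2⟩ : Pool.Agent.TH444.ML.Gal K Ω X))
    _ (fun b => ?_) h1 c ?_
  · refine h2.congr fun p => ?_
    congr 2
    push_cast
    ring
  · exact Real.rpow_nonneg (dsc_nonneg b.1) _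
  · intro b
    have hm : Set.MapsTo (fun p : PV K Ω X V => p.1.2) ((fun p : PV K Ω X V =>
        (⟨p.1.1, (pv_basic (X := X) (V := V) p.2).2.2.2.2.2⟩ : Pool.Agent.TH444.ML.Gal K Ω X)) ⁻¹' {b})
        {M : IntermediateField K Ω | (b.1, M) ∈ PV K Ω X V} := by
      intro p hp
      have hp1 : p.1.1 = b.1 := congrArg Subtype.val hp
      change (b.1, p.1.2) ∈ PV K Ω X V
      rw [← hp1]
      exact p.2
    have hi : Set.InjOn (fun p : PV K Ω X V => p.1.2) ((fun p : PV K Ω X V =>
        (⟨p.1.1, (pv_basic (X := X) (V := V) p.2).2.2.2.2.2⟩ : Pool.Agent.TH444.ML.Gal K Ω X)) ⁻¹' {b}) := by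
      intro p hp q hq hpq
      have hp1 : p.1.1 = b.1 := congrArg Subtype.val hp
      have hq1 : q.1.1 = b.1 := congrArg Subtype.val hq
      exact Subtype.ext (Prod.ext (hp1.trans hq1.symm) hpq)
    refine ⟨Set.Finite.of_injOn hm hi (hfin b.1).1, ?_⟩
    exact (Set.ncard_le_ncard_of_injOn _ hm hi (hfin b.1).1).trans (hfin b.1).2

end Pool.Agent.W5h46.MR

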