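import Pool.Agent.W5h46.MR.Kum
import Pool.Agent.W5h46.MR.TDef
import Pool.Agent.W5h46.MR.JobB
import Pool.Agent.W5h46.MR.JobG
import Pool.Agent.TH444.ML.Tr

/-!
# The extensions above a fixed pair `(N, M)`
-/

set_option autoImplicit false
set_option linter.unusedSectionVars false

open IntermediateField Filter Topology NumberField

namespace Pool.Agent.W5h46.MR

open Pool.Agent.TH444.ML (KumP DiscQuad SplitSum dsc nf_of_fd dsc_eq one_le_dsc AS QS extend_mem finite_AS
  fd_of_AS ncard_AS)

section

variable {K Ω : Type} [Field K] [NumberField K] [Field Ω] [Algebra K Ω] [IsAlgClosure K Ω]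
variable {M N : IntermediateField K Ω}

theorem tow1 (hMN : M ≤ N) : letI := algR hMN; IsScalarTower K M N := by
  let _ := algR hMN
  exact IsScalarTower.of_algebraMap_eq fun x => rfl

theorem tow2 (hMN : M ≤ N) : letI := algR hMN; IsScalarTower M N Ω := by
  let _ := algR hMN
  exact IsScalarTower.of_algebraMap_eq fun x => rfl

theorem adj_restrict (L : IntermediateField M Ω) :
    (adjoin N (L : Set Ω)).restrictScalars K = L.restrictScalars K ⊔ N := by
  have h1 := IntermediateField.restrictScalars_adjoin K N (L : Set Ω)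
  rw [h1, IntermediateField.adjoin_union, IntermediateField.adjoin_self, sup_comm]
  congr 1
  exact IntermediateField.adjoin_self K (L.restrictScalars K)

/-- the full ones -/
def FQ [NumberField N] (hMN : M ≤ N) (Y : ℝ) : Set (IntermediateField M Ω) :=
  letI := algR hMN
  {L | L ∈ QR M N Ω Y ∧ Module.finrank K
      (normalClosure K ((adjoin N (L : Set Ω)).restrictScalars K) Ω) =
    2 ^ Module.finrank K M * Module.finrank K N}

theorem finrank_top (hMN : M ≤ N) [FiniteDimensional K M] [FiniteDimensional K N] [Normal K N]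
    {L : IntermediateField M Ω} (hL : Module.finrank M L = 2)
    (hne : Module.finrank K (normalClosure K ((adjoin N (L : Set Ω)).restrictScalars K) Ω) =
      2 ^ Module.finrank K M * Module.finrank K N) :
    Module.finrank N (adjoin N (L : Set Ω)) = 2 := by
  let _ := algR hMN
  have htow := tow2 hMN
  have hac : IsAlgClosed Ω := IsAlgClosure.isAlgClosed K
  have hNM : NumberField M := nf_of_fd M
  have hNN : NumberField N := nf_of_fd N
  obtain ⟨b, s, hs, hns, hLs⟩ := exists_gen L hL
  rw [hLs] at hne ⊢
  rw [adjoin_adj (M := M) (N := N) s] at hne ⊢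
  have h1 : s ^ 2 = algebraMap N Ω (algebraMap M N b) := by
    rw [hs, IsScalarTower.algebraMap_apply M N Ω]
  refine Pool.Agent.TH914.J3087.finrank_two h1 ?_
  intro x hx
  have h2 : s ∈ (⊥ : IntermediateField N Ω) := IntermediateField.mem_bot.2 ⟨x, hx⟩
  have h3 : adjoin N {s} = ⊥ := IntermediateField.adjoin_simple_eq_bot_iff.2 h2
  rw [h3] at hne
  have h4 : (⊥ : IntermediateField N Ω).restrictScalars K = N := by
    ext y
    simp
  rw [h4] at hne
  have h5 : normalClosure K N Ω = N := IntermediateField.normalClosure_of_normal N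
  rw [h5] at hne
  have hpos : 0 < Module.finrank K N := Module.finrank_pos
  have hm : 0 < Module.finrank K M := Module.finrank_pos
  have h6 : 2 ≤ 2 ^ Module.finrank K M := by
    calc 2 = 2 ^ 1 := rfl
      _ ≤ _ := Nat.pow_le_pow_right two_pos hm
  nlinarith

theorem nf_sq {N : IntermediateField K Ω} [NumberField N] :
    ((discr N : ℤ) : ℝ) ^ 2 = dsc N ^ 2 := by
  rw [dsc_eq N]
  push_cast
  exact (sq_abs _).symm

theorem finrank_MN (hMN : M ≤ N) [FiniteDimensional K M] [FiniteDimensional K N] (r : ℕ)
    (hr : Module.finrank K N = Module.finrank K M * r) :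
    letI := algR hMN; Module.finrank M N = r := by
  let _ := algR hMN
  have htow := tow1 hMN
  have h := Module.finrank_mul_finrank K M N
  have hpos : 0 < Module.finrank K M := Module.finrank_pos
  exact Nat.eq_of_mul_eq_mul_left hpos (by rw [h, hr])

section pair

variable {X : Type} [Group X] [Finite X] {V : Subgroup X}

theorem finrank_pv (h : (N, M) ∈ PV K Ω X V) :
    Module.finrank K N = Module.finrank K M * Nat.card V := by
  obtain ⟨h1, h2, h3, h4, h5, h6⟩ := pv_basic h
  rw [h4, h5]
  exact Subgroup.card_eq_card_quotient_mul_card_subgroup V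

theorem image_FQ [NumberField N] (h : (N, M) ∈ PV K Ω X V) (Y : ℝ) :
    (fun L : IntermediateField M Ω => (adjoin N (L : Set Ω)).restrictScalars K) ''
      (FQ (pv_basic h).1 Y) = SV X V N M (Y ^ Nat.card V * dsc N ^ 2) := by
  obtain ⟨hMN, hMfd, hgal, hN, hM, hG⟩ := pv_basic h
  have hNfd : FiniteDimensional K N := h.1
  let _ := algR hMN
  have htow1 := tow1 hMN
  have htow2 := tow2 hMN
  have hr := finrank_MN hMN (Nat.card V) (finrank_pv h)
  have hnorm : Normal K N := hgal.to_normal
  have hNM : NumberField M := nf_of_fd M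
  ext L'
  constructor
  · rintro ⟨L, ⟨⟨h1, h2, h3, h4⟩, h5⟩, rfl⟩
    refine ⟨⟨h, ⟨L.restrictScalars K, ?_, ?_, ?_⟩, h5⟩, ?_⟩
    · intro x hx
      exact L.algebraMap_mem ⟨x, hx⟩
    · have h6 := Module.finrank_mul_finrank K M L
      rw [h1] at h6
      rw [mul_comm, h6]
      rfl
    · exact adj_restrict L
    · have hnf : NumberField ((adjoin N (L : Set Ω)).restrictScalars K) := h3
      show dsc ((adjoin N (L : Set Ω)).restrictScalars K) ≤ _
      rw [dsc_eq ((adjoin N (L : Set Ω)).restrictScalars K), ← nf_sq, ← hr]
      exact h4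
  · rintro ⟨⟨-, ⟨L₁, h1, h2, h3⟩, h5⟩, h4⟩
    have hfin : Module.finrank M (extendScalars h1) = 2 := by
      have h6 := Module.finrank_mul_finrank K M (extendScalars h1)
      have hpos : 0 < Module.finrank K M := Module.finrank_pos
      have h7 : Module.finrank K (extendScalars h1) = Module.finrank K L₁ := rfl
      rw [h7, h2, mul_comm 2] at h6
      exact Nat.eq_of_mul_eq_mul_left hpos h6
    have h8 : (adjoin N ((extendScalars h1 : IntermediateField M Ω) : Set Ω)).restrictScalars K = L' := by
      rw [adj_restrict, h3]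
      rfl
    refine ⟨extendScalars h1, ⟨⟨hfin, ?_, ?_⟩, ?_⟩, h8⟩
    · refine finrank_top hMN hfin ?_
      rw [h8]
      exact h5
    · have hfd : FiniteDimensional K L' := by
        rw [h3]
        have hL₁ : FiniteDimensional K L₁ := by
          have hpos : 0 < Module.finrank K M := Module.finrank_pos
          exact FiniteDimensional.of_finrank_pos (by omega)
        infer_instance
      have hnf' : NumberField L' := nf_of_fd L'
      have hnf : NumberField ((adjoin N ((extendScalars h1 : IntermediateField M Ω) : Set Ω)).restrictScalars K) := by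
        rw [h8]; exact hnf'
      refine ⟨hnf, ?_⟩
      have h9 : dsc ((adjoin N ((extendScalars h1 : IntermediateField M Ω) : Set Ω)).restrictScalars K) ≤
          Y ^ Nat.card V * dsc N ^ 2 := by rw [h8]; exact h4
      rw [dsc_eq ((adjoin N ((extendScalars h1 : IntermediateField M Ω) : Set Ω)).restrictScalars K),
        ← nf_sq, ← hr] at h9
      exact h9
    · rw [h8]
      exact h5

end pair

end

end Pool.Agent.W5h46.MR
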