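import Pool.Agent.W5h46.MR.Main1

/-!
# The extensions above a fixed pair `(N, M)`: limit and uniform bound
-/

set_option autoImplicit false
set_option linter.unusedSectionVars false

open IntermediateField Filter Topology NumberField

namespace Pool.Agent.W5h46.MR

open Pool.Agent.TH444.ML (KumP DiscQuad SplitSum QuadUnif dsc nf_of_fd dsc_eq one_le_dsc AS QS extend_mem finite_AS
  fd_of_AS ncard_AS)

lemma ncard_fib {α β : Type*} (f : α → β) (S : Set α) (hS : S.Finite) (κ : ℕ)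
    (h : ∀ b ∈ f '' S, {x | x ∈ S ∧ f x = b}.ncard = κ) : S.ncard = κ * (f '' S).ncard := by
  classical
  rw [Set.ncard_eq_toFinset_card S hS, Set.ncard_eq_toFinset_card (f '' S) (hS.image f),
    Finset.card_eq_sum_card_image f]
  have e1 : hS.toFinset.image f = (hS.image f).toFinset := by
    ext b
    simp
  rw [e1, mul_comm, ← smul_eq_mul, ← Finset.sum_const]
  refine Finset.sum_congr rfl fun b hb => ?_
  rw [← h b ((hS.image f).mem_toFinset.1 hb), ← Set.ncard_coe_finset]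
  congr 1
  ext x
  simp

section pair

variable {K Ω : Type} [Field K] [NumberField K] [Field Ω] [Algebra K Ω] [IsAlgClosure K Ω]
variable {M N : IntermediateField K Ω}
variable {X : Type} [Group X] [Finite X] {V : Subgroup X}

theorem ncard_FQ (hfib : FibR) [NumberField N] (h : (N, M) ∈ PV K Ω X V) :
    ∃ κ : ℕ, 0 < κ ∧ ∀ Y : ℝ, (FQ (pv_basic h).1 Y).Finite →
      (FQ (pv_basic h).1 Y).ncard = κ * (SV X V N M (Y ^ Nat.card V * dsc N ^ 2)).ncard := by
  obtain ⟨hMN, hMfd, hgal, hN, hM, hG⟩ := pv_basic h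
  have hNfd : FiniteDimensional K N := h.1
  let _ := algR hMN
  have htow1 := tow1 hMN
  have htow2 := tow2 hMN
  have hac : IsAlgClosed Ω := IsAlgClosure.isAlgClosed K
  have hNM : NumberField M := nf_of_fd M
  have hfdMN : FiniteDimensional M N := Module.Finite.of_restrictScalars_finite K M N
  obtain ⟨κ, hκ, hk⟩ := hfib M N Ω
  refine ⟨κ, hκ, fun Y hfin => ?_⟩
  rw [← image_FQ h Y]
  have e1 : (fun L : IntermediateField M Ω => (adjoin N (L : Set Ω)).restrictScalars K) ''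
      (FQ hMN Y) = (fun L' : IntermediateField N Ω => L'.restrictScalars K) ''
        ((fun L : IntermediateField M Ω => adjoin N (L : Set Ω)) '' (FQ hMN Y)) := by
    rw [Set.image_image]
  rw [e1, Set.ncard_image_of_injective _ (IntermediateField.restrictScalars_injective K)]
  apply ncard_fib _ _ hfin
  rintro _ ⟨L, hL, rfl⟩
  obtain ⟨⟨h1, h2, h3⟩, h4⟩ := hL
  rw [← hk (adjoin N (L : Set Ω)) h2 ⟨L, h1, rfl⟩]
  congr 1
  ext L₂
  constructor
  · rintro ⟨h5, h6⟩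
    exact ⟨h5.1.1, h6⟩
  · rintro ⟨h5, h6⟩
    refine ⟨⟨⟨h5, ?_, ?_⟩, ?_⟩, h6⟩
    · rw [h6]; exact h2
    · rw [h6]; exact h3
    · rw [h6]; exact h4

/-- the others are few -/
theorem bad_sub (hcomp : CompR) (hMN : M ≤ N) [FiniteDimensional K M] [NumberField M] [NumberField N] :
    letI := algR hMN
    ∃ C : ℝ, 0 < C ∧ ∀ Y : ℝ, 0 ≤ Y →
      (fun L : IntermediateField M Ω => L.restrictScalars K) '' (QR M N Ω Y \ FQ hMN Y) ⊆
        SYR K Ω M N (C * Y) := by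
  let _ := algR hMN
  have htow1 := tow1 hMN
  have htow2 := tow2 hMN
  have hac : IsAlgClosed Ω := IsAlgClosure.isAlgClosed K
  obtain ⟨C, hC, hc⟩ := hcomp M N Ω
  refine ⟨C, hC, fun Y hY => ?_⟩
  rintro _ ⟨L, ⟨hL1, hL2⟩, rfl⟩
  have hle : M ≤ L.restrictScalars K := by
    intro x hx
    exact L.algebraMap_mem ⟨x, hx⟩
  have h1 : L.restrictScalars K ∈ AS M (C * Y) := by
    rw [extend_mem _ hle]
    exact hc Y hY hL1
  refine ⟨h1.1, h1.2.1, ?_, h1.2.2⟩
  intro h2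
  apply hL2
  refine ⟨hL1, ?_⟩
  rw [adj_restrict]
  exact h2

theorem lim_FQ (hlim : LimR) (hcomp : CompR) (hu : QuadUnif) (h1 : DiscQuad) (h2 : KumP)
    (h5 : SplitSum) (huni : UnifR) (hMN : M ≤ N) [FiniteDimensional K M] [FiniteDimensional K N]
    [Normal K N] [NumberField M] [NumberField N] :
    ∃ c : ℝ, 0 < c ∧ (∀ Y : ℝ, 0 ≤ Y → (FQ hMN Y).Finite) ∧
      Tendsto (fun Y : ℝ => (Set.ncard (FQ hMN Y) : ℝ) / Y) atTop (𝓝 c) := by
  let _ := algR hMN
  have htow1 := tow1 hMN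
  have htow2 := tow2 hMN
  have hac : IsAlgClosed Ω := IsAlgClosure.isAlgClosed K
  obtain ⟨c, hc0, hc⟩ := hlim M N Ω
  obtain ⟨C, hC, hbad⟩ := bad_sub hcomp hMN
  obtain ⟨C₁, hC₁⟩ := huni (Module.finrank ℚ M) (Module.finrank M N) 1 one_pos
  have hfin : ∀ Y : ℝ, 0 ≤ Y → (QR M N Ω Y).Finite := fun Y hY => (hC₁ M N Ω rfl rfl Y hY).1
  have hsub : ∀ Y : ℝ, FQ hMN Y ⊆ QR M N Ω Y := fun Y L hL => hL.1
  have hfinF : ∀ Y : ℝ, 0 ≤ Y → (FQ hMN Y).Finite := fun Y hY => (hfin Y hY).subset (hsub Y)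
  refine ⟨c, hc0, hfinF, ?_⟩
  obtain ⟨C₂, hC₂⟩ := hu (Module.finrank ℚ M)
  have hfinS : ∀ Y : ℝ, 0 ≤ Y → (SYR K Ω M N Y).Finite := by
    intro Y hY
    refine (finite_AS M Y (hC₂ M Ω rfl Y hY).1).subset ?_
    rintro L ⟨a1, a2, a3, a4⟩
    exact ⟨a1, a2, a4⟩
  have hS := badSmallR h1 h2 h5 K Ω M N hMN
  have hCY : Tendsto (fun Y : ℝ => C * Y) atTop atTop := tendsto_id.const_mul_atTop hC
  have hS2 := (hS.comp hCY).mul_const C
  rw [zero_mul] at hS2
  have hbad0 : Tendsto (fun Y : ℝ => ((QR M N Ω Y \ FQ hMN Y).ncard : ℝ) / Y) atTop (𝓝 0) := by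
    refine squeeze_zero' ?_ ?_ hS2
    · filter_upwards [eventually_gt_atTop 0] with Y hY
      positivity
    · filter_upwards [eventually_gt_atTop 0] with Y hY
      have h3 : (QR M N Ω Y \ FQ hMN Y).ncard ≤ (SYR K Ω M N (C * Y)).ncard := by
        rw [← Set.ncard_image_of_injective (QR M N Ω Y \ FQ hMN Y)
          (IntermediateField.restrictScalars_injective K)]
        exact Set.ncard_le_ncard (hbad Y hY.le) (hfinS _ (by positivity))
      have h4 : ((QR M N Ω Y \ FQ hMN Y).ncard : ℝ) ≤ (SYR K Ω M N (C * Y)).ncard := by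
        exact_mod_cast h3
      show _ ≤ ((SYR K Ω M N (C * Y)).ncard : ℝ) / (C * Y) * C
      rw [div_mul_eq_mul_div, div_le_div_iff₀ hY (by positivity)]
      calc ((QR M N Ω Y \ FQ hMN Y).ncard : ℝ) * (C * Y) ≤
          ((SYR K Ω M N (C * Y)).ncard : ℝ) * (C * Y) :=
            mul_le_mul_of_nonneg_right h4 (by positivity)
        _ = _ := by ring
  have h6 := hc.sub hbad0
  rw [sub_zero] at h6
  refine h6.congr' ?_
  filter_upwards [eventually_gt_atTop 0] with Y hY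
  have h7 := Set.ncard_diff_add_ncard_of_subset (hsub Y) (hfin Y hY.le)
  rw [← h7]
  push_cast
  ring

theorem limSV (hlim : LimR) (hcomp : CompR) (hfib : FibR) (hu : QuadUnif) (h1 : DiscQuad) (h2 : KumP)
    (h5 : SplitSum) (huni : UnifR) (h : (N, M) ∈ PV K Ω X V) (D : ℝ) (hD : 0 < D) :
    ∃ c : ℝ, 0 < c ∧ Tendsto (fun B : ℝ =>
      (Set.ncard (SV X V N M (B * D)) : ℝ) / B ^ (1 / (Nat.card V : ℝ))) atTop (𝓝 c) := by
  obtain ⟨hMN, hMfd, hgal, hN, hM, hG⟩ := pv_basic h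
  have hNfd : FiniteDimensional K N := h.1
  have hnorm : Normal K N := hgal.to_normal
  have hNM : NumberField M := nf_of_fd M
  have hNN : NumberField N := nf_of_fd N
  obtain ⟨c, hc0, hfin, hc⟩ := lim_FQ hlim hcomp hu h1 h2 h5 huni hMN
  obtain ⟨κ, hκ, hk⟩ := ncard_FQ hfib h
  obtain ⟨r, hr⟩ : ∃ r : ℕ, r = Nat.card V := ⟨_, rfl⟩
  rw [← hr] at hk ⊢
  have hr0 : 0 < r := by rw [hr]; exact Nat.card_pos
  have hr0' : (0 : ℝ) < r := by exact_mod_cast hr0
  have hκ' : (0 : ℝ) < κ := by exact_mod_cast hκ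
  have hd1 : 1 ≤ dsc N := one_le_dsc N
  obtain ⟨E, hE⟩ : ∃ E : ℝ, E = D / dsc N ^ 2 := ⟨_, rfl⟩
  have hE0 : 0 < E := by rw [hE]; positivity
  -- `ncard SV / Y`
  have h3 : Tendsto (fun Y : ℝ => ((SV X V N M (Y ^ r * dsc N ^ 2)).ncard : ℝ) / Y) atTop
      (𝓝 (c / κ)) := by
    refine (hc.div_const (κ : ℝ)).congr' ?_
    filter_upwards [eventually_gt_atTop 0] with Y hY
    rw [hk Y (hfin Y hY.le)]
    push_cast
    field_simp
  have h4 : Tendsto (fun B : ℝ => (B * E) ^ (1 / (r : ℝ))) atTop atTop :=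
    (tendsto_rpow_atTop (by positivity)).comp (tendsto_id.atTop_mul_const hE0)
  refine ⟨c / κ * E ^ (1 / (r : ℝ)), by positivity, ?_⟩
  refine ((h3.comp h4).mul_const (E ^ (1 / (r : ℝ)))).congr' ?_
  filter_upwards [eventually_gt_atTop 0] with B hB
  show ((SV X V N M (((B * E) ^ (1 / (r : ℝ))) ^ r * dsc N ^ 2)).ncard : ℝ) / (B * E) ^ (1 / (r : ℝ)) *
    E ^ (1 / (r : ℝ)) = _
  have e1 : ((B * E) ^ (1 / (r : ℝ))) ^ r = B * E := by
    rw [one_div]
    exact Real.rpow_inv_natCast_pow (by positivity) (by omega)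
  have e2 : B * E * dsc N ^ 2 = B * D := by
    rw [hE]
    field_simp
  rw [e1, e2, Real.mul_rpow hB.le hE0.le]
  have e3 : 0 < B ^ (1 / (r : ℝ)) := Real.rpow_pos_of_pos hB _
  have e4 : 0 < E ^ (1 / (r : ℝ)) := Real.rpow_pos_of_pos hE0 _
  field_simp

end pair

end Pool.Agent.W5h46.MR
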