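import Pool.Agent.W5h46.MR.Main2

/-!
# The extensions above a fixed pair `(N, M)`: uniform bound
-/

set_option autoImplicit false
set_option linter.unusedSectionVars false

open IntermediateField Filter Topology NumberField

namespace Pool.Agent.W5h46.MR

open Pool.Agent.TH444.ML (dsc nf_of_fd dsc_eq one_le_dsc)

/-- real number computation -/
theorem calc_bound {r : ℕ} (hr : 0 < r) {C dM dN B D q : ℝ} (hM : 1 ≤ dM) (hN : 1 ≤ dN)
    (hMN : dM ^ r ≤ dN) (hB : 0 < B) (hD : 0 < D)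
    (hq : q ≤ C * dM ^ (7 / 4 : ℝ) * dN ^ (1 / (8 * r) : ℝ) * (B * (D / dN ^ 2)) ^ (1 / (r : ℝ))) :
    q ≤ max C 0 * D ^ (1 / (r : ℝ)) * B ^ (1 / (r : ℝ)) * dN ^ (-(1 / (8 * r)) : ℝ) := by
  have hr' : (0 : ℝ) < r := by exact_mod_cast hr
  have hM0 : 0 < dM := by linarith
  have hN0 : 0 < dN := by linarith
  have h1 : dM ≤ dN ^ (1 / (r : ℝ)) := by
    have h2 : (dM ^ r) ^ ((r : ℝ)⁻¹) = dM := Real.pow_rpow_inv_natCast hM0.le (by omega)
    rw [one_div, ← h2]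
    exact Real.rpow_le_rpow (by positivity) hMN (by positivity)
  have h3 : dM ^ (7 / 4 : ℝ) ≤ dN ^ (7 / (4 * r) : ℝ) := by
    calc dM ^ (7 / 4 : ℝ) ≤ (dN ^ (1 / (r : ℝ))) ^ (7 / 4 : ℝ) :=
          Real.rpow_le_rpow hM0.le h1 (by norm_num)
      _ = dN ^ (7 / (4 * r) : ℝ) := by
          rw [← Real.rpow_mul hN0.le]
          congr 1
          field_simp
  have h4 : (B * (D / dN ^ 2)) ^ (1 / (r : ℝ)) =
      B ^ (1 / (r : ℝ)) * (D ^ (1 / (r : ℝ)) * dN ^ (-(2 / r) : ℝ)) := by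
    rw [Real.mul_rpow hB.le (by positivity), Real.div_rpow hD.le (by positivity),
      ← Real.rpow_natCast dN 2, ← Real.rpow_mul hN0.le, Real.rpow_neg hN0.le, div_eq_mul_inv]
    congr 4
    push_cast
    ring
  have h5 : dN ^ (7 / (4 * r) : ℝ) * dN ^ (1 / (8 * r) : ℝ) * dN ^ (-(2 / r) : ℝ) =
      dN ^ (-(1 / (8 * r)) : ℝ) := by
    rw [← Real.rpow_add hN0, ← Real.rpow_add hN0]
    congr 1
    field_simp
    norm_num
  refine hq.trans ?_
  calc C * dM ^ (7 / 4 : ℝ) * dN ^ (1 / (8 * r) : ℝ) * (B * (D / dN ^ 2)) ^ (1 / (r : ℝ)) ≤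
      max C 0 * dN ^ (7 / (4 * r) : ℝ) * dN ^ (1 / (8 * r) : ℝ) *
        (B * (D / dN ^ 2)) ^ (1 / (r : ℝ)) := by
        apply mul_le_mul_of_nonneg_right _ (by positivity)
        apply mul_le_mul_of_nonneg_right _ (by positivity)
        exact mul_le_mul (le_max_left _ _) h3 (by positivity) (le_max_right _ _)
    _ = max C 0 * D ^ (1 / (r : ℝ)) * B ^ (1 / (r : ℝ)) *
        (dN ^ (7 / (4 * r) : ℝ) * dN ^ (1 / (8 * r) : ℝ) * dN ^ (-(2 / r) : ℝ)) := by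
        rw [h4]
        ring
    _ = _ := by rw [h5]

theorem boundSV (huni : UnifR)
    (hpow : ∀ (K Ω : Type) [Field K] [NumberField K] [Field Ω] [Algebra K Ω]
      (M N : IntermediateField K Ω) [FiniteDimensional K N], M ≤ N → ∀ (r : ℕ),
      Module.finrank K N = r * Module.finrank K M → dsc M ^ r ≤ dsc N)
    (K Ω X : Type) [Field K] [NumberField K] [Field Ω] [Algebra K Ω]
    [IsAlgClosure K Ω] [Group X] [Finite X] (V : Subgroup X) (D : ℝ) (hD : 0 < D) :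
    ∃ C : ℝ, 0 ≤ C ∧ ∀ N M : IntermediateField K Ω, (N, M) ∈ PV K Ω X V → ∀ B : ℝ, 0 < B →
      (SV X V N M (B * D)).Finite ∧
      (Set.ncard (SV X V N M (B * D)) : ℝ) ≤
        C * B ^ (1 / (Nat.card V : ℝ)) * (dsc N) ^ (-(1 / (8 * Nat.card V)) : ℝ) := by
  obtain ⟨r, hr⟩ : ∃ r : ℕ, r = Nat.card V := ⟨_, rfl⟩
  have hr0 : 0 < r := by rw [hr]; exact Nat.card_pos
  have hr0' : (0 : ℝ) < r := by exact_mod_cast hr0
  have hac : IsAlgClosed Ω := IsAlgClosure.isAlgClosed K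
  obtain ⟨C, hC⟩ := huni (Module.finrank ℚ K * Nat.card (X ⧸ V)) r (1 / (8 * r)) (by positivity)
  rw [← hr]
  refine ⟨max C 0 * D ^ (1 / (r : ℝ)), by positivity, ?_⟩
  intro N M h B hB
  obtain ⟨hMN, hMfd, hgal, hN, hM, hG⟩ := pv_basic h
  have hNfd : FiniteDimensional K N := h.1
  have hNM : NumberField M := nf_of_fd M
  have hNN : NumberField N := nf_of_fd N
  let _ := algR hMN
  have htow1 := tow1 hMN
  have htow2 := tow2 hMN
  have hrk := finrank_MN hMN (Nat.card V) (finrank_pv h)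
  have hdeg : Module.finrank ℚ M = Module.finrank ℚ K * Nat.card (X ⧸ V) := by
    rw [← hM, Module.finrank_mul_finrank ℚ K M]
  have hd1 : 1 ≤ dsc N := one_le_dsc N
  obtain ⟨Y, hY⟩ : ∃ Y : ℝ, Y = (B * (D / dsc N ^ 2)) ^ (1 / (r : ℝ)) := ⟨_, rfl⟩
  have hY0 : 0 ≤ Y := by rw [hY]; positivity
  have e1 : Y ^ r = B * (D / dsc N ^ 2) := by
    rw [hY, one_div]
    exact Real.rpow_inv_natCast_pow (by positivity) (by omega)
  have e2 : Y ^ Nat.card V * dsc N ^ 2 = B * D := by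
    rw [← hr, e1]
    field_simp
  have himg := image_FQ h Y
  rw [e2] at himg
  obtain ⟨hf, hle⟩ := hC M N Ω hdeg (by rw [hr]; exact hrk) Y hY0
  have hsub : FQ hMN Y ⊆ QR M N Ω Y := fun L hL => hL.1
  have hfF : (FQ hMN Y).Finite := hf.subset hsub
  refine ⟨by rw [← himg]; exact hfF.image _, ?_⟩
  have h1 : (SV X V N M (B * D)).ncard ≤ (QR M N Ω Y).ncard := by
    rw [← himg]
    exact (Set.ncard_image_le hfF).trans (Set.ncard_le_ncard hsub hf)
  have h2 : ((SV X V N M (B * D)).ncard : ℝ) ≤ (QR M N Ω Y).ncard := by exact_mod_cast h1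
  refine calc_bound hr0 (one_le_dsc M) hd1 (hpow K Ω M N hMN r ?_) hB hD ?_
  · rw [finrank_pv h, ← hr, mul_comm]
  · rw [← hY, dsc_eq M, dsc_eq N]
    exact h2.trans hle

end Pool.Agent.W5h46.MR
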